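import Mathlib
import Pool.Agent.H.MP_296aa8_al.Chev

namespace Pool.Agent.H.MP_fda97a_al
open Pool.Agent.H.MP_296aa8_al Matrix Polynomial

section pol
variable {W W' : Type} [AddCommGroup W] [Module ℂ W] [AddCommGroup W'] [Module ℂ W']

lemma pol_line {f : W → ℂ} (hf : f ∈ Pol W) (x y : W) :
    ∃ P : ℂ[X], ∀ t : ℂ, f (x + t • y) = P.eval t := by
  induction hf using Algebra.adjoin_induction with
  | mem l hl =>
    obtain ⟨l, rfl⟩ := hl
    exact ⟨C (l x) + X * C (l y), fun t => by simp; ring⟩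
  | algebraMap r => exact ⟨C r, fun t => by simp⟩
  | add a b _ _ ha hb =>
    obtain ⟨P, hP⟩ := ha
    obtain ⟨Q, hQ⟩ := hb
    exact ⟨P + Q, fun t => by simp [hP, hQ]⟩
  | mul a b _ _ ha hb =>
    obtain ⟨P, hP⟩ := ha
    obtain ⟨Q, hQ⟩ := hb
    exact ⟨P * Q, fun t => by simp [hP, hQ]⟩

def NZ (q : W → ℂ) : Prop := q ∈ Pol W ∧ ∃ x, q x ≠ 0

lemma NZ.mul {p q : W → ℂ} (hp : NZ p) (hq : NZ q) : NZ (fun w => p w * q w) := by
  refine ⟨Pol.mul hp.1 hq.1, ?_⟩
  obtain ⟨x, hx⟩ := hp.2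
  obtain ⟨y, hy⟩ := hq.2
  obtain ⟨P, hP⟩ := pol_line hp.1 x (y - x)
  obtain ⟨Q, hQ⟩ := pol_line hq.1 x (y - x)
  have hP0 : P ≠ 0 := by
    rintro rfl
    have := hP 0
    simp at this; exact hx this
  have hQ0 : Q ≠ 0 := by
    rintro rfl
    have := hQ 1
    simp at this; exact hy this
  have : P * Q ≠ 0 := mul_ne_zero hP0 hQ0
  by_contra h
  push Not at h
  apply this
  apply Polynomial.funext
  intro t
  have := h (x + t • (y - x))
  rw [hP, hQ] at this
  simpa using this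

lemma NZ.ext {q f : W → ℂ} (hq : NZ q) (hf : f ∈ Pol W) (h : ∀ z, q z ≠ 0 → f z = 0) (z : W) :
    f z = 0 := by
  by_contra hz
  obtain ⟨w, hw⟩ := (hq.mul ⟨hf, z, hz⟩).2
  have := mul_ne_zero_iff.1 hw
  exact this.2 (h w this.1)

lemma NZ.eq {q f g : W → ℂ} (hq : NZ q) (hf : f ∈ Pol W) (hg : g ∈ Pol W)
    (h : ∀ z, q z ≠ 0 → f z = g z) (z : W) : f z = g z :=
  sub_eq_zero.1 (hq.ext (Pol.sub hf hg) (fun z hz => sub_eq_zero.2 (h z hz)) z)

lemma NZ.comp {q : W' → ℂ} (hq : NZ q) (L : W →ₗ[ℂ] W') (hL : Function.Surjective L) :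
    NZ (fun w => q (L w)) := by
  refine ⟨Pol.comp (PMap.lin L) hq.1, ?_⟩
  obtain ⟨x, hx⟩ := hq.2
  obtain ⟨y, rfl⟩ := hL x
  exact ⟨y, hx⟩

lemma Pol.pow {f : W → ℂ} (hf : f ∈ Pol W) (k : ℕ) : (fun w => f w ^ k) ∈ Pol W :=
  (Pol W).pow_mem hf k

lemma Pol.neg {f : W → ℂ} (hf : f ∈ Pol W) : (fun w => - f w) ∈ Pol W :=
  (Pol W).neg_mem hf

variable {n : Type} [Fintype n] [DecidableEq n]

lemma pm_add {F G : W → W'} (hF : PMap F) (hG : PMap G) : PMap (fun w => F w + G w) :=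
  fun l => by simpa using Pol.add (hF l) (hG l)

lemma pm_sub {F G : W → W'} (hF : PMap F) (hG : PMap G) : PMap (fun w => F w - G w) :=
  fun l => by simpa using Pol.sub (hF l) (hG l)

lemma pm_neg {F : W → W'} (hF : PMap F) : PMap (fun w => - F w) :=
  fun l => by simpa using Pol.neg (hF l)

lemma pm_smul {f : W → ℂ} {G : W → W'} (hf : f ∈ Pol W) (hG : PMap G) :
    PMap (fun w => f w • G w) :=
  fun l => by simpa using Pol.mul hf (hG l)

lemma pm_sum {ι : Type} (s : Finset ι) {F : ι → W → W'} (hF : ∀ i, PMap (F i)) :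
    PMap (fun w => ∑ i ∈ s, F i w) :=
  fun l => by simpa using Pol.sum s (fun i => hF i l)

lemma pm_pow {F : W → Matrix n n ℂ} (hF : PMap F) (k : ℕ) : PMap (fun w => F w ^ k) := by
  induction k with
  | zero => simpa using PMap.const (W := W) (1 : Matrix n n ℂ)
  | succ k ih => simpa [pow_succ] using ih.mul hF

lemma pm_trace {F : W → Matrix n n ℂ} (hF : PMap F) : (fun w => (F w).trace) ∈ Pol W :=
  hF (Matrix.traceLinearMap n ℂ ℂ)

lemma pm_coeff {F : W → Matrix n n ℂ} (hF : PMap F) (k : ℕ) :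
    (fun w => (F w).charpoly.coeff k) ∈ Pol W := by
  let Y : Matrix n n (Pol W) := fun i j => ⟨fun w => F w i j, hF.entry i j⟩
  let ev : W → (Pol W →+* ℂ) := fun w => (Pi.evalRingHom (fun _ : W => ℂ) w).comp (Pol W).val.toRingHom
  have h : ∀ w, F w = Y.map (ev w) := fun w => by ext i j; rfl
  have : (fun w => (F w).charpoly.coeff k) = (Y.charpoly.coeff k).1 := by
    ext w
    rw [h w, Matrix.charpoly_map, Polynomial.coeff_map]
    rfl
  rw [this]
  exact (Y.charpoly.coeff k).2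

lemma pm_aeval {F G : W → Matrix n n ℂ} (hF : PMap F) (hG : PMap G) :
    PMap (fun w => aeval (F w) (G w).charpoly) := by
  have : (fun w => aeval (F w) (G w).charpoly) =
      fun w => ∑ k ∈ Finset.range (Fintype.card n + 1), (G w).charpoly.coeff k • F w ^ k := by
    ext1 w
    rw [Polynomial.aeval_eq_sum_range' (n := Fintype.card n + 1)]
    rw [Matrix.charpoly_natDegree_eq_dim]; omega
  rw [this]
  exact pm_sum _ fun k => pm_smul (pm_coeff hG k) (pm_pow hF k)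

end pol

section spec
variable {n : Type} [Fintype n] [DecidableEq n]

def br (T S : Matrix n n ℂ) : Matrix n n ℂ := T * S - S * T

lemma pm_br {W : Type} [AddCommGroup W] [Module ℂ W] {F G : W → Matrix n n ℂ} (hF : PMap F)
    (hG : PMap G) : PMap (fun w => br (F w) (G w)) := pm_sub (hF.mul hG) (hG.mul hF)

def Ev (A : Matrix n n ℂ) (μ : ℂ) : Prop := ∃ v, v ≠ 0 ∧ A *ᵥ v = μ • v

lemma ev_iff_root (A : Matrix n n ℂ) (μ : ℂ) : Ev A μ ↔ A.charpoly.eval μ = 0 := by
  rw [Matrix.eval_charpoly, ← Matrix.exists_mulVec_eq_zero_iff]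
  refine exists_congr fun v => and_congr_right fun _ => ?_
  rw [Matrix.sub_mulVec, sub_eq_zero, eq_comm]
  have : (Matrix.scalar n μ) *ᵥ v = μ • v := by
    ext i; simp [Matrix.mulVec_diagonal]
  rw [this]

lemma spec_iff (A : Matrix n n ℂ) (μ : ℂ) : μ ∈ spectrum ℂ A ↔ Ev A μ := by
  rw [Matrix.mem_spectrum_iff_isRoot_charpoly, ev_iff_root]; rfl

lemma aeval_eig {A : Matrix n n ℂ} {v : n → ℂ} {μ : ℂ} (h : A *ᵥ v = μ • v) (f : ℂ[X]) :
    aeval A f *ᵥ v = f.eval μ • v := by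
  induction f using Polynomial.induction_on' with
  | add p q hp hq => simp [Matrix.add_mulVec, hp, hq, add_smul]
  | monomial k a =>
    have : ∀ k : ℕ, (A ^ k) *ᵥ v = μ ^ k • v := by
      intro k
      induction k with
      | zero => simp
      | succ k ih => rw [pow_succ, ← Matrix.mulVec_mulVec, h, Matrix.mulVec_smul, ih, smul_smul,
          pow_succ, mul_comm]
    rw [Polynomial.aeval_monomial, Polynomial.eval_monomial, ← Algebra.smul_def,
      Matrix.smul_mulVec, this, smul_smul]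

lemma aeval_eigL {A : Matrix n n ℂ} {v : n → ℂ} {μ : ℂ} (h : v ᵥ* A = μ • v) (f : ℂ[X]) :
    v ᵥ* aeval A f = f.eval μ • v := by
  induction f using Polynomial.induction_on' with
  | add p q hp hq => simp [Matrix.vecMul_add, hp, hq, add_smul]
  | monomial k a =>
    have : ∀ k : ℕ, v ᵥ* (A ^ k) = μ ^ k • v := by
      intro k
      induction k with
      | zero => simp
      | succ k ih => rw [pow_succ', ← Matrix.vecMul_vecMul, h, Matrix.smul_vecMul, ih, smul_smul,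
          pow_succ, mul_comm]
    rw [Polynomial.aeval_monomial, Polynomial.eval_monomial, ← Algebra.smul_def,
      Matrix.vecMul_smul, this, smul_smul]

lemma dvd_pow_of_roots {m g : ℂ[X]} {N : ℕ} (hm : m ≠ 0) (hN : m.natDegree ≤ N)
    (h : ∀ μ, m.eval μ = 0 → g.eval μ = 0) : m ∣ g ^ N := by
  have hc : m.roots.card = m.natDegree := IsAlgClosed.card_roots_eq_natDegree
  have e := Polynomial.C_leadingCoeff_mul_prod_multiset_X_sub_C hc
  have h1 : (m.roots.map fun a => X - C a).prod ∣ (m.roots.map fun _ => g).prod :=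
    Multiset.prod_dvd_prod_of_dvd _ _ fun a ha =>
      Polynomial.dvd_iff_isRoot.2 (h a ((Polynomial.mem_roots hm).1 ha))
  rw [Multiset.map_const', Multiset.prod_replicate, hc] at h1
  have hu : IsUnit (C m.leadingCoeff) :=
    Polynomial.isUnit_C.2 (isUnit_iff_ne_zero.2 (Polynomial.leadingCoeff_ne_zero.2 hm))
  rw [← e, hu.mul_left_dvd]
  exact h1.trans (pow_dvd_pow g hN)

/-- local spectrum through annihilating polynomials -/
def LS (A : Matrix n n ℂ) (x : n → ℂ) (μ : ℂ) : Prop :=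
  ∀ f : ℂ[X], aeval A f *ᵥ x = 0 → f.eval μ = 0

lemma LS.ev {A : Matrix n n ℂ} {x : n → ℂ} {μ : ℂ} (h : LS A x μ) : Ev A μ :=
  (ev_iff_root A μ).2 (h _ (by rw [Matrix.aeval_self_charpoly, Matrix.zero_mulVec]))

lemma kill_of_LS {A : Matrix n n ℂ} {x : n → ℂ} {g : ℂ[X]} (h : ∀ μ, LS A x μ → g.eval μ = 0) :
    aeval A (g ^ Fintype.card n) *ᵥ x = 0 := by
  let I : Ideal ℂ[X] :=
    { carrier := {f | aeval A f *ᵥ x = 0}
      add_mem' := fun {a b} ha hb => by
        simp only [Set.mem_setOf_eq, map_add, Matrix.add_mulVec] at *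
        rw [ha, hb, add_zero]
      zero_mem' := by simp
      smul_mem' := fun c a ha => by
        simp only [Set.mem_setOf_eq, smul_eq_mul, map_mul, ← Matrix.mulVec_mulVec] at *
        rw [ha, Matrix.mulVec_zero] }
  have hI : ∀ f, f ∈ I ↔ aeval A f *ᵥ x = 0 := fun f => Iff.rfl
  let m := Submodule.IsPrincipal.generator I
  have hm : ∀ f, f ∈ I ↔ m ∣ f := fun f => Submodule.IsPrincipal.mem_iff_generator_dvd I
  have hχ : m ∣ A.charpoly := (hm _).1 ((hI _).2 (by rw [Matrix.aeval_self_charpoly, Matrix.zero_mulVec]))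
  have hχ0 : A.charpoly ≠ 0 := A.charpoly_monic.ne_zero
  have hm0 : m ≠ 0 := ne_zero_of_dvd_ne_zero hχ0 hχ
  have hd : m.natDegree ≤ Fintype.card n := by
    rw [← Matrix.charpoly_natDegree_eq_dim A]
    exact Polynomial.natDegree_le_of_dvd hχ hχ0
  refine (hI _).1 ((hm _).2 (dvd_pow_of_roots hm0 hd fun μ hμ => h μ fun f hf => ?_))
  obtain ⟨c, rfl⟩ := (hm f).1 ((hI f).2 hf)
  rw [Polynomial.eval_mul, hμ, zero_mul]

lemma LS_left {A : Matrix n n ℂ} {x f : n → ℂ} {μ : ℂ} (h : f ᵥ* A = μ • f) (hx : f ⬝ᵥ x ≠ 0) :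
    LS A x μ := by
  intro p hp
  have := congrArg (fun z => f ⬝ᵥ z) hp
  simp only [Matrix.dotProduct_mulVec, aeval_eigL h, smul_dotProduct, dotProduct_zero,
    smul_eq_mul] at this
  exact (mul_eq_zero.1 this).resolve_right hx

lemma LS_eig {A : Matrix n n ℂ} {x : n → ℂ} {μ : ℂ} (h : A *ᵥ x = μ • x) (hx : x ≠ 0) (ν : ℂ) :
    LS A x ν ↔ ν = μ := by
  constructor
  · intro H
    have := H (X - C μ) (by rw [aeval_eig h]; simp)
    simpa [sub_eq_zero] using this
  · rintro rfl p hp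
    rw [aeval_eig h] at hp
    exact (smul_eq_zero.1 hp).resolve_right hx

lemma ev_neg {A : Matrix n n ℂ} {μ : ℂ} : Ev (-A) μ ↔ Ev A (-μ) := by
  refine exists_congr fun v => and_congr_right fun _ => ?_
  rw [Matrix.neg_mulVec, neg_smul, neg_eq_iff_eq_neg]

lemma ev_transpose {A : Matrix n n ℂ} {μ : ℂ} : Ev Aᵀ μ ↔ Ev A μ := by
  rw [ev_iff_root, ev_iff_root, Matrix.charpoly_transpose]

lemma ev_conj {A B : Matrix n n ℂ} (hB : IsUnit B) {μ : ℂ} : Ev (B * A * B⁻¹) μ ↔ Ev A μ := by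
  have hd := (Matrix.isUnit_iff_isUnit_det B).1 hB
  rw [ev_iff_root, ev_iff_root, Matrix.charpoly_mul_comm, ← Matrix.mul_assoc,
    Matrix.nonsing_inv_mul _ hd, Matrix.one_mul]

end spec

end Pool.Agent.H.MP_fda97a_al
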