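import Mathlib
import Pool.Agent.H.MP_fda97a_al.Basic

namespace Pool.Agent.H.MP_fda97a_al
open Pool.Agent.H.MP_296aa8_al Matrix Polynomial

variable {N : ℕ}

abbrev Mat (N : ℕ) := Matrix (Fin N) (Fin N) ℂ

noncomputable def disc (A : Mat N) : ℂ :=
  (Matrix.of fun i j : Fin N => (A ^ ((i : ℕ) + (j : ℕ))).trace).det

lemma pm_disc {W : Type} [AddCommGroup W] [Module ℂ W] {F : W → Mat N} (hF : PMap F) :
    (fun w => disc (F w)) ∈ Pol W :=
  PMap.det (PMap.matrix fun i j => pm_trace (pm_pow hF _))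

lemma sep_of_disc {A : Mat N} (h : disc A ≠ 0) :
    ∃ d : Fin N → ℂ, Function.Injective d ∧ ∀ i, Ev A (d i) := by
  classical
  let R := A.charpoly.roots.toFinset
  have hχ0 : A.charpoly ≠ 0 := A.charpoly_monic.ne_zero
  by_cases hR : N ≤ R.card
  · obtain ⟨t, ht, hc⟩ := Finset.exists_subset_card_eq hR
    let e : Fin N ≃ t := (t.equivFinOfCardEq hc).symm
    refine ⟨fun i => (e i : ℂ), fun i j hij => e.injective (Subtype.ext hij), fun i => ?_⟩
    have := ht (e i).2
    rw [Multiset.mem_toFinset, Polynomial.mem_roots hχ0] at this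
    exact (ev_iff_root _ _).2 this
  · exfalso
    push Not at hR
    let m : ℂ[X] := ∏ a ∈ R, (X - C a)
    have hmon : m.Monic := Polynomial.monic_prod_of_monic _ _ fun a _ => Polynomial.monic_X_sub_C a
    have hdeg : m.natDegree = R.card := by
      rw [Polynomial.natDegree_prod_of_monic _ _ fun a _ => Polynomial.monic_X_sub_C a]
      simp
    have hdvd : A.charpoly ∣ m ^ N := by
      refine dvd_pow_of_roots hχ0 (by rw [Matrix.charpoly_natDegree_eq_dim]; simp) fun μ hμ => ?_
      rw [Polynomial.eval_prod]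
      refine Finset.prod_eq_zero (i := μ) ?_ (by simp)
      rw [Multiset.mem_toFinset, Polynomial.mem_roots hχ0]; exact hμ
    have hnil : IsNilpotent (aeval A m) := by
      obtain ⟨c, hc⟩ := hdvd
      refine ⟨N, ?_⟩
      rw [← map_pow, hc, map_mul, Matrix.aeval_self_charpoly, zero_mul]
    apply h
    unfold disc
    rw [← Matrix.exists_vecMul_eq_zero_iff]
    refine ⟨fun i => m.coeff i, fun h0 => ?_, ?_⟩
    · have := congrFun h0 ⟨R.card, hR⟩
      simp only [Pi.zero_apply] at this
      rw [← hdeg] at this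
      exact one_ne_zero (hmon.coeff_natDegree.symm.trans this)
    · ext j
      have hc : Commute (aeval A m) (A ^ (j : ℕ)) := by
        have : A ^ (j : ℕ) = aeval A ((X : ℂ[X]) ^ (j : ℕ)) := by simp
        rw [this]
        exact (Commute.all m _).map (aeval A)
      have h0 := (Matrix.isNilpotent_trace_of_isNilpotent (hc.isNilpotent_mul_right hnil)).eq_zero
      rw [Polynomial.aeval_eq_sum_range' (n := N) (by omega), Finset.sum_mul, Matrix.trace_sum,
        Finset.sum_range] at h0
      simp only [Matrix.vecMul, dotProduct, Matrix.of_apply, Pi.zero_apply]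
      rw [← h0]
      refine Finset.sum_congr rfl fun i _ => ?_
      rw [Matrix.smul_mul, Matrix.trace_smul, ← pow_add, smul_eq_mul]

lemma diagonalize {A : Mat N} {d : Fin N → ℂ} (hd : Function.Injective d) (h : ∀ i, Ev A (d i)) :
    ∃ B : Mat N, IsUnit B ∧ A = B * diagonal d * B⁻¹ := by
  choose v hv0 hv using h
  have hli : LinearIndependent ℂ v :=
    Module.End.eigenvectors_linearIndependent' (Matrix.toLin' A) d hd v fun i =>
      ⟨Module.End.mem_eigenspace_iff.2 (by simpa using hv i), hv0 i⟩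
  let B : Mat N := Matrix.of fun i j => v j i
  have hB : IsUnit B := Matrix.linearIndependent_cols_iff_isUnit.1 hli
  have hdet := (Matrix.isUnit_iff_isUnit_det B).1 hB
  refine ⟨B, hB, ?_⟩
  have : A * B = B * diagonal d := by
    ext i j
    have := congrFun (hv j) i
    simp only [Matrix.mulVec, dotProduct, Pi.smul_apply, smul_eq_mul] at this
    rw [Matrix.mul_diagonal, Matrix.mul_apply]
    simp only [B, Matrix.of_apply]
    rw [this, mul_comm]
  rw [← this, Matrix.mul_assoc, Matrix.mul_nonsing_inv _ hdet, Matrix.mul_one]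

lemma conj_pow {B : Mat N} (hB : IsUnit B) (A : Mat N) (k : ℕ) :
    (B * A * B⁻¹) ^ k = B * A ^ k * B⁻¹ := by
  have hdet := (Matrix.isUnit_iff_isUnit_det B).1 hB
  induction k with
  | zero => simp [Matrix.mul_nonsing_inv _ hdet]
  | succ k ih =>
    rw [pow_succ, ih, pow_succ]
    simp only [Matrix.mul_assoc]
    rw [← Matrix.mul_assoc B⁻¹, Matrix.nonsing_inv_mul _ hdet, Matrix.one_mul]

lemma trace_conj' {B : Mat N} (hB : IsUnit B) (A : Mat N) : (B * A * B⁻¹).trace = A.trace := by
  have hdet := (Matrix.isUnit_iff_isUnit_det B).1 hB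
  rw [Matrix.trace_mul_comm, ← Matrix.mul_assoc, Matrix.nonsing_inv_mul _ hdet, Matrix.one_mul]

lemma trace_pow_of_ev {A : Mat N} {d : Fin N → ℂ} (hd : Function.Injective d)
    (h : ∀ i, Ev A (d i)) (k : ℕ) : (A ^ k).trace = ∑ i, d i ^ k := by
  obtain ⟨B, hB, rfl⟩ := diagonalize hd h
  rw [conj_pow hB, trace_conj' hB, Matrix.diagonal_pow, Matrix.trace_diagonal]
  rfl

lemma disc_conj {B : Mat N} (hB : IsUnit B) (A : Mat N) : disc (B * A * B⁻¹) = disc A := by
  unfold disc
  simp only [conj_pow hB, trace_conj' hB]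

lemma disc_diag {d : Fin N → ℂ} (hd : Function.Injective d) : disc (diagonal d) ≠ 0 := by
  have : (Matrix.of fun i j : Fin N => ((diagonal d) ^ ((i : ℕ) + (j : ℕ))).trace) =
      (vandermonde d)ᵀ * vandermonde d := by
    ext i j
    simp [Matrix.diagonal_pow, Matrix.trace_diagonal, Matrix.mul_apply, Matrix.vandermonde_apply,
      pow_add]
  unfold disc
  rw [this, Matrix.det_mul, Matrix.det_transpose]
  exact mul_ne_zero (Matrix.det_vandermonde_ne_zero_iff.2 hd) (Matrix.det_vandermonde_ne_zero_iff.2 hd)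

lemma br_conj {B : Mat N} (hB : IsUnit B) (T S : Mat N) :
    br (B * T * B⁻¹) (B * S * B⁻¹) = B * br T S * B⁻¹ := by
  have hdet := (Matrix.isUnit_iff_isUnit_det B).1 hB
  have h : ∀ T S : Mat N, B * T * B⁻¹ * (B * S * B⁻¹) = B * (T * S) * B⁻¹ := by
    intro T S
    simp only [Matrix.mul_assoc]
    rw [← Matrix.mul_assoc B⁻¹, Matrix.nonsing_inv_mul _ hdet, Matrix.one_mul]
  unfold br
  rw [h, h, Matrix.mul_sub, Matrix.sub_mul]

lemma diag_br {d : Fin N → ℂ} (hd : ∑ i, d i = 0) : ∃ T S : Mat N, br T S = diagonal d := by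
  classical
  rcases N with _ | m
  · exact ⟨0, 0, Subsingleton.elim _ _⟩
  let σ := finRotate (m + 1)
  let c : Fin (m + 1) → ℂ := fun j => - ∑ k ∈ Finset.Iic j, d k
  have hc : ∀ j, c j - c (σ j) = d (σ j) := by
    intro j
    simp only [c, σ, finRotate_succ_apply]
    by_cases hj : j = Fin.last m
    · subst hj
      have h1 : Finset.Iic (Fin.last m) = Finset.univ := by
        ext k; simp [Fin.le_last]
      have h2 : Finset.Iic (0 : Fin (m + 1)) = {0} := by
        ext k; simp
      rw [Fin.last_add_one, h1, h2, hd]; simp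
    · have hv : ((j + 1 : Fin (m + 1)) : ℕ) = j + 1 := Fin.val_add_one_of_lt (lt_of_le_of_ne (Fin.le_last j) hj)
      have h1 : Finset.Iic (j + 1) = insert (j + 1) (Finset.Iic j) := by
        ext k
        simp only [Finset.mem_Iic, Finset.mem_insert, Fin.le_def, Fin.ext_iff, hv]
        omega
      have h2 : j + 1 ∉ Finset.Iic j := by
        simp only [Finset.mem_Iic, Fin.le_def, hv]; omega
      rw [h1, Finset.sum_insert h2]; ring
  refine ⟨Matrix.of fun i j => if i = σ j then 1 else 0,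
    Matrix.of fun i j => if j = σ i then c i else 0, ?_⟩
  ext i k
  obtain ⟨i, rfl⟩ := σ.surjective i
  obtain ⟨k, rfl⟩ := σ.surjective k
  simp only [br, Matrix.sub_apply, Matrix.mul_apply, Matrix.of_apply, EmbeddingLike.apply_eq_iff_eq,
    ite_mul, one_mul, zero_mul, Finset.sum_ite_eq, Finset.sum_ite_eq', Finset.mem_univ, if_true,
    mul_ite, mul_one, mul_zero, Matrix.diagonal_apply]
  by_cases hk : i = k
  · subst hk
    simp [hc]
  · have hk' : ¬ k = i := fun h => hk h.symm
    simp [hk, hk']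

lemma br_of_disc {A : Mat N} (h : disc A ≠ 0) (ht : A.trace = 0) : ∃ T S : Mat N, br T S = A := by
  obtain ⟨d, hd, hev⟩ := sep_of_disc h
  obtain ⟨B, hB, rfl⟩ := diagonalize hd hev
  rw [trace_conj' hB, Matrix.trace_diagonal] at ht
  obtain ⟨T, S, hTS⟩ := diag_br ht
  exact ⟨_, _, by rw [br_conj hB, hTS]⟩

lemma exists_diag (N : ℕ) : ∃ d : Fin N → ℂ, Function.Injective d ∧ ∑ i, d i = 0 := by
  rcases N with _ | m
  · exact ⟨0, fun i => i.elim0, by simp⟩
  refine ⟨fun i => ((i : ℕ) : ℂ) - (∑ j : Fin (m + 1), ((j : ℕ) : ℂ)) / ((m + 1 : ℕ) : ℂ),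
    fun i j hij => ?_, ?_⟩
  · simp only [sub_left_inj, Nat.cast_inj] at hij
    exact Fin.ext hij
  · have : ((m + 1 : ℕ) : ℂ) ≠ 0 := Nat.cast_ne_zero.2 (Nat.succ_ne_zero m)
    rw [Finset.sum_sub_distrib, Finset.sum_const, Finset.card_univ, Fintype.card_fin, nsmul_eq_mul]
    field_simp
    ring

end Pool.Agent.H.MP_fda97a_al
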