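import Mathlib
import Pool.Agent.H.MP_fda97a_al.Sep

namespace Pool.Agent.H.MP_fda97a_al
open Pool.Agent.H.MP_296aa8_al Matrix Polynomial

variable {N : ℕ}

lemma br_add_left (T U S : Mat N) : br (T + U) S = br T S + br U S := by
  simp only [br, add_mul, mul_add]; abel
lemma br_add_right (T U S : Mat N) : br S (T + U) = br S T + br S U := by
  simp only [br, add_mul, mul_add]; abel
lemma br_smul_left (c : ℂ) (T S : Mat N) : br (c • T) S = c • br T S := by
  simp only [br, Matrix.smul_mul, Matrix.mul_smul, smul_sub]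
lemma br_smul_right (c : ℂ) (T S : Mat N) : br S (c • T) = c • br S T := by
  simp only [br, Matrix.smul_mul, Matrix.mul_smul, smul_sub]
lemma br_one_left (S : Mat N) : br 1 S = 0 := by simp [br]
lemma br_one_right (S : Mat N) : br S 1 = 0 := by simp [br]
lemma br_self (S : Mat N) : br S S = 0 := by simp [br]
lemma br_swap (T S : Mat N) : br T S = - br S T := by simp [br]
lemma trace_br (T S : Mat N) : (br T S).trace = 0 := by
  rw [br, Matrix.trace_sub, Matrix.trace_mul_comm, sub_self]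

noncomputable def Rb : Mat N →ₗ[ℂ] Mat N →ₗ[ℂ] (Mat N → ℂ) :=
  LinearMap.mk₂ ℂ (fun S1 S2 => fun T => (br T S1 * br T S2).trace)
    (fun _ _ _ => by ext T; simp [br_add_right, add_mul])
    (fun _ _ _ => by ext T; simp [br_smul_right])
    (fun _ _ _ => by ext T; simp [br_add_right, mul_add])
    (fun _ _ _ => by ext T; simp [br_smul_right])

lemma Rb_apply (S1 S2 T : Mat N) : Rb S1 S2 T = (br T S1 * br T S2).trace := rfl

noncomputable def FF (N : ℕ) : Submodule ℂ (Mat N → ℂ) :=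
  Submodule.span ℂ (Set.range fun S : Mat N => Rb S S)

noncomputable def dg : (Mat N →ₗ[ℂ] Mat N →ₗ[ℂ] ℂ) →ₗ[ℂ] (Mat N → ℂ) where
  toFun β := fun T => β T T
  map_add' _ _ := rfl
  map_smul' _ _ := rfl

lemma FF_le : FF N ≤ LinearMap.range dg := by
  rw [FF, Submodule.span_le]
  rintro _ ⟨S, rfl⟩
  refine ⟨LinearMap.mk₂ ℂ (fun T U => (br T S * br U S).trace)
    (fun _ _ _ => by simp [br_add_left, add_mul])
    (fun _ _ _ => by simp [br_smul_left])
    (fun _ _ _ => by simp [br_add_left, mul_add])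
    (fun _ _ _ => by simp [br_smul_left]), rfl⟩

instance : FiniteDimensional ℂ (FF N) := Submodule.finiteDimensional_of_le FF_le

lemma pol_bil (β : Mat N →ₗ[ℂ] Mat N →ₗ[ℂ] ℂ) : (fun T => β T T) ∈ Pol (Mat N) := by
  have : (fun T => β T T) = fun T => ∑ i, ∑ j, T i j * β (Matrix.single i j 1) T := by
    ext T
    conv_lhs => arg 1; rw [Matrix.matrix_eq_sum_single T]
    simp only [map_sum, LinearMap.sum_apply]
    refine Finset.sum_congr rfl fun i _ => Finset.sum_congr rfl fun j _ => ?_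
    rw [← smul_eq_mul, ← LinearMap.smul_apply, ← map_smul, Matrix.smul_single, smul_eq_mul, mul_one]
  rw [this]
  exact Pol.sum _ fun i => Pol.sum _ fun j => Pol.mul (PMap.id.entry i j) (Pol.lin _)

lemma FF_quad (f : FF N) : ∃ β : Mat N →ₗ[ℂ] Mat N →ₗ[ℂ] ℂ, (∀ x y, β x y = β y x) ∧
    ∀ T, f.1 T = β T T := by
  obtain ⟨β, hβ⟩ := FF_le f.2
  refine ⟨(1 / 2 : ℂ) • (β + β.flip), fun x y => by simp [add_comm], fun T => ?_⟩
  rw [← hβ]
  simp [dg]; ring

lemma FF_pol (f : FF N) : f.1 ∈ Pol (Mat N) := by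
  obtain ⟨β, -, hβ⟩ := FF_quad f
  have : f.1 = fun T => β T T := funext hβ
  rw [this]; exact pol_bil β

lemma Rb_mem (S1 S2 : Mat N) : Rb S1 S2 ∈ FF N := by
  have h : ∀ S : Mat N, Rb S S ∈ FF N := fun S => Submodule.subset_span ⟨S, rfl⟩
  have : Rb S1 S2 = (1 / 2 : ℂ) • (Rb (S1 + S2) (S1 + S2) - Rb S1 S1 - Rb S2 S2) := by
    ext T
    have : Rb S2 S1 T = Rb S1 S2 T := by rw [Rb_apply, Rb_apply, Matrix.trace_mul_comm]
    simp only [map_add, LinearMap.add_apply, Pi.smul_apply, Pi.sub_apply, Pi.add_apply, this,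
      smul_eq_mul]
    ring
  rw [this]
  exact Submodule.smul_mem _ _ (Submodule.sub_mem _ (Submodule.sub_mem _ (h _) (h _)) (h _))

noncomputable def af (f y : Fin N → ℂ) : Mat N →ₗ[ℂ] ℂ where
  toFun T := f ⬝ᵥ T *ᵥ y
  map_add' _ _ := by simp [Matrix.add_mulVec]
  map_smul' _ _ := by simp [Matrix.smul_mulVec]

lemma af_apply (f y : Fin N → ℂ) (T : Mat N) : af f y T = f ⬝ᵥ T *ᵥ y := rfl

lemma af_mul_mem {f y g x : Fin N → ℂ} (h1 : f ⬝ᵥ y = 0) (h2 : g ⬝ᵥ x = 0) :
    (fun T => af f y T * af g x T) ∈ FF N := by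
  have : (fun T => af f y T * af g x T) = (1 / 2 : ℂ) • Rb (vecMulVec x f) (vecMulVec y g) := by
    ext T
    have e1 : vecMulVec x f * vecMulVec y g = 0 := by
      rw [Matrix.vecMulVec_mul_vecMulVec, h1]; simp
    have e2 : vecMulVec y g * vecMulVec x f = 0 := by
      rw [Matrix.vecMulVec_mul_vecMulVec, h2]; simp
    have e3 : (T * vecMulVec x f * (T * vecMulVec y g)).trace = af f y T * af g x T := by
      rw [Matrix.mul_vecMulVec, Matrix.mul_vecMulVec, Matrix.vecMulVec_mul_vecMulVec,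
        Matrix.trace_vecMulVec, dotProduct_smul, af_apply, af_apply, smul_eq_mul,
        dotProduct_comm (T *ᵥ x) g]
    have e4 : (vecMulVec x f * T * (vecMulVec y g * T)).trace = af f y T * af g x T := by
      rw [← e3, ← Matrix.mul_assoc, Matrix.trace_mul_comm]
      simp only [Matrix.mul_assoc]
    have e5 : (T * vecMulVec x f * (vecMulVec y g * T)).trace = 0 := by
      rw [Matrix.mul_assoc, ← Matrix.mul_assoc (vecMulVec x f), e1]; simp
    have e6 : (vecMulVec x f * T * (T * vecMulVec y g)).trace = 0 := by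
      rw [← Matrix.mul_assoc, Matrix.trace_mul_comm, ← Matrix.mul_assoc, ← Matrix.mul_assoc, e2]
      simp
    simp only [Pi.smul_apply, Rb_apply, br, sub_mul, mul_sub, Matrix.trace_sub, e3, e4, e5, e6,
      smul_eq_mul]
    ring
  rw [this]
  exact Submodule.smul_mem _ _ (Rb_mem _ _)

noncomputable def Ann (N : ℕ) : Submodule ℂ (Mat N →ₗ[ℂ] ℂ) :=
  Submodule.span ℂ {a | ∃ f y, f ⬝ᵥ y = 0 ∧ a = af f y}

lemma ann_mul_mem {a b : Mat N →ₗ[ℂ] ℂ} (ha : a ∈ Ann N) (hb : b ∈ Ann N) :
    (fun T => a T * b T) ∈ FF N := by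
  induction ha using Submodule.span_induction with
  | mem a ha =>
    obtain ⟨f, y, h1, rfl⟩ := ha
    induction hb using Submodule.span_induction with
    | mem b hb =>
      obtain ⟨g, x, h2, rfl⟩ := hb
      exact af_mul_mem h1 h2
    | zero => simp only [LinearMap.zero_apply, mul_zero]; exact (FF N).zero_mem
    | add b c _ _ hb hc =>
      have := (FF N).add_mem hb hc
      simp only [LinearMap.add_apply, mul_add]; exact this
    | smul c b _ hb =>
      have := (FF N).smul_mem c hb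
      have e : (fun T => af f y T * (c • b) T) = c • fun T => af f y T * b T := by
        ext T; simp; ring
      rw [e]; exact this
  | zero => simp only [LinearMap.zero_apply, zero_mul]; exact (FF N).zero_mem
  | add a c _ _ ha hc =>
    have := (FF N).add_mem ha hc
    simp only [LinearMap.add_apply, add_mul]; exact this
  | smul c a _ ha =>
    have := (FF N).smul_mem c ha
    have e : (fun T => (c • a) T * b T) = c • fun T => a T * b T := by
      ext T; simp; ring
    rw [e]; exact this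

noncomputable def ent (i0 i j : Fin N) : Mat N →ₗ[ℂ] ℂ where
  toFun T := (T - T i0 i0 • (1 : Mat N)) i j
  map_add' _ _ := by simp; ring
  map_smul' _ _ := by simp; ring

lemma ent_apply (i0 i j : Fin N) (T : Mat N) : ent i0 i j T = (T - T i0 i0 • (1 : Mat N)) i j := rfl

lemma ent_mem (i0 i j : Fin N) : ent i0 i j ∈ Ann N := by
  have hs : ∀ i j : Fin N, i ≠ j → af (Pi.single i 1) (Pi.single j 1) ∈ Ann N := fun i j hij =>
    Submodule.subset_span ⟨_, _, by simp [Pi.single_apply, hij], rfl⟩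
  by_cases hij : i = j
  · subst hij
    by_cases h0 : i = i0
    · subst h0
      have : ent i i i = 0 := by ext T; simp [ent_apply]
      rw [this]; exact (Ann N).zero_mem
    · have : ent i0 i i = af (Pi.single i 1 - Pi.single i0 1) (Pi.single i 1 + Pi.single i0 1)
          - af (Pi.single i 1) (Pi.single i0 1) + af (Pi.single i0 1) (Pi.single i 1) := by
        ext1 T
        simp [ent_apply, af_apply, Matrix.mulVec_add, sub_dotProduct]
        ring
      rw [this]
      refine (Ann N).add_mem ((Ann N).sub_mem (Submodule.subset_span ⟨_, _, ?_, rfl⟩) (hs _ _ h0))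
        (hs _ _ (Ne.symm h0))
      simp [sub_dotProduct, Pi.single_apply, h0, Ne.symm h0]
  · have : ent i0 i j = af (Pi.single i 1) (Pi.single j 1) := by
      ext1 T
      simp [ent_apply, af_apply, hij]
    rw [this]; exact hs _ _ hij

lemma exists_Lam {φ : Mat N → Mat N} {p : Mat N → ℂ} (hp : p ∈ Pol (Mat N)) {T0 S0 : Mat N}
    (h0 : p (br T0 S0) ≠ 0)
    (h : ∀ T S, p (br T S) ≠ 0 → (br (φ T) (φ S) * br (φ T) (φ S)).trace = (br T S * br T S).trace) :
    ∃ q, NZ q ∧ ∃ L : FF N →ₗ[ℂ] FF N, Function.Injective L ∧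
      ∀ (f : FF N) (T : Mat N), q T ≠ 0 → (L f).1 T = f.1 (φ T) := by
  classical
  let s : Set (Mat N → ℂ) := (fun S => Rb S S) '' {S | p (br T0 S) ≠ 0}
  have hs : Submodule.span ℂ s = FF N := by
    apply le_antisymm
    · rw [Submodule.span_le]
      rintro _ ⟨S, -, rfl⟩
      exact Rb_mem S S
    · rw [FF, Submodule.span_le]
      rintro _ ⟨S, rfl⟩
      by_contra hS
      obtain ⟨l, hl, hle⟩ := Submodule.exists_le_ker_of_notMem hS
      have hnz : NZ (fun S => p (br T0 S)) :=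
        ⟨Pol.comp (pm_br (PMap.const _) PMap.id) hp, S0, h0⟩
      exact hl (hnz.ext (pol_bil (Rb.compr₂ l)) (fun z hz => hle (Submodule.subset_span ⟨z, hz, rfl⟩)) S)
  obtain ⟨b, hbs, hspan, hli⟩ := exists_linearIndependent ℂ s
  rw [hs] at hspan
  have hbF : ∀ j : b, j.1 ∈ FF N := fun j => hspan ▸ Submodule.subset_span j.2
  let v : b → FF N := fun j => ⟨j.1, hbF j⟩
  have hv : LinearIndependent ℂ v := LinearIndependent.of_comp (FF N).subtype hli
  haveI : Finite b := hv.finite
  haveI : Fintype b := Fintype.ofFinite b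
  have htop : ⊤ ≤ Submodule.span ℂ (Set.range v) := by
    intro f _
    have : f.1 ∈ Submodule.map (FF N).subtype (Submodule.span ℂ (Set.range v)) := by
      rw [Submodule.map_span, ← Set.range_comp]
      have : Set.range ((FF N).subtype ∘ v) = b := by
        ext x; simp [v]
      rw [this, hspan]; exact f.2
    obtain ⟨g, hg, hgf⟩ := this
    have : g = f := Subtype.ext hgf
    exact this ▸ hg
  have hcard : Fintype.card b = Module.finrank ℂ (FF N) :=
    (Module.finrank_eq_card_basis (Module.Basis.mk hv htop)).symm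
  have hS : ∀ j : b, ∃ S, p (br T0 S) ≠ 0 ∧ Rb S S = j.1 := fun j => hbs j.2
  choose S hS0 hS using hS
  let q : Mat N → ℂ := fun T => ∏ j, p (br T (S j))
  have hq : NZ q := ⟨Pol.prod _ fun j => Pol.comp (pm_br PMap.id (PMap.const _)) hp, T0,
    Finset.prod_ne_zero_iff.2 fun j _ => hS0 j⟩
  let w : b → FF N := fun j => ⟨Rb (φ (S j)) (φ (S j)), Rb_mem _ _⟩
  have hwv : ∀ j T, q T ≠ 0 → (w j).1 (φ T) = (v j).1 T := by
    intro j T hT
    have := h T (S j) (Finset.prod_ne_zero_iff.1 hT j (Finset.mem_univ _))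
    change Rb (φ (S j)) (φ (S j)) (φ T) = j.1 T
    rw [← hS j, Rb_apply, Rb_apply, this]
  have hw : LinearIndependent ℂ w := by
    rw [Fintype.linearIndependent_iff]
    intro c hc
    refine Fintype.linearIndependent_iff.1 hv c (Subtype.ext (funext ?_))
    refine hq.ext (FF_pol _) fun T hT => ?_
    have := congrFun (congrArg Subtype.val hc) (φ T)
    simp only [Submodule.coe_sum, Submodule.coe_smul, Finset.sum_apply, Pi.smul_apply,
      hwv _ T hT] at this ⊢
    exact this
  let Bw := basisOfLinearIndependentOfCardEqFinrank' w hw hcard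
  have hBw : ∀ j, Bw j = w j := fun j => by
    simp [Bw, coe_basisOfLinearIndependentOfCardEqFinrank']
  refine ⟨q, hq, Bw.constr ℂ v, Bw.injective_constr_of_linearIndependent hv, fun f T hT => ?_⟩
  have : (LinearMap.proj T : (Mat N → ℂ) →ₗ[ℂ] ℂ) ∘ₗ (FF N).subtype ∘ₗ Bw.constr ℂ v =
      (LinearMap.proj (φ T) : (Mat N → ℂ) →ₗ[ℂ] ℂ) ∘ₗ (FF N).subtype := by
    refine Bw.ext fun j => ?_
    simp only [LinearMap.comp_apply, Module.Basis.constr_basis, LinearMap.proj_apply,
      Submodule.subtype_apply]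
    rw [hBw, hwv j T hT]
  exact LinearMap.congr_fun this f

lemma quad_sq {β1 β3 : Mat N →ₗ[ℂ] Mat N →ₗ[ℂ] ℂ} (s1 : ∀ x y, β1 x y = β1 y x)
    (s3 : ∀ x y, β3 x y = β3 y x) (h : ∀ y, β1 y y = 0 → β3 y y = 0) {x : Mat N}
    (hx : β1 x x ≠ 0) :
    (∃ l : Mat N →ₗ[ℂ] ℂ, ∀ y, β1 y y = l y ^ 2) ∨ ∃ c : ℂ, ∀ y, β3 y y = c * β1 y y := by
  by_cases hΔ : ∀ y, β1 x y ^ 2 - β1 x x * β1 y y = 0
  · left
    obtain ⟨s, hs⟩ := IsAlgClosed.exists_pow_nat_eq (β1 x x) (n := 2) (by norm_num)
    have hs0 : s ≠ 0 := by rintro rfl; apply hx; rw [← hs]; simp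
    refine ⟨s⁻¹ • β1 x, fun y => ?_⟩
    have := hΔ y
    rw [← hs] at this
    simp only [LinearMap.smul_apply, smul_eq_mul]
    field_simp
    linear_combination -this
  · right
    push Not at hΔ
    have hnz : NZ (fun y => β1 x y ^ 2 - β1 x x * β1 y y) :=
      ⟨Pol.sub (Pol.pow (Pol.lin _) 2) (Pol.mul (Pol.const _) (pol_bil _)), hΔ⟩
    refine ⟨β3 x x / β1 x x, hnz.eq (pol_bil _) (Pol.mul (Pol.const _) (pol_bil _)) fun y hy => ?_⟩
    obtain ⟨r, hr⟩ := IsAlgClosed.exists_pow_nat_eq (β1 x y ^ 2 - β1 x x * β1 y y) (n := 2)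
      (by norm_num)
    have hr0 : r ≠ 0 := by rintro rfl; apply hy; rw [← hr]; simp
    have key : ∀ t : ℂ, β1 y y + 2 * t * β1 x y + t ^ 2 * β1 x x = 0 →
        β3 y y + 2 * t * β3 x y + t ^ 2 * β3 x x = 0 := by
      intro t ht
      have := h (y + t • x) (by
        simp only [map_add, map_smul, LinearMap.add_apply, LinearMap.smul_apply, smul_eq_mul, s1 y x]
        linear_combination ht)
      simp only [map_add, map_smul, LinearMap.add_apply, LinearMap.smul_apply, smul_eq_mul,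
        s3 y x] at this
      linear_combination this
    have a1 : β1 y y + 2 * ((-β1 x y + r) / β1 x x) * β1 x y + ((-β1 x y + r) / β1 x x) ^ 2 * β1 x x
        = 0 := by
      field_simp; linear_combination hr
    have a2 : β1 y y + 2 * ((-β1 x y - r) / β1 x x) * β1 x y + ((-β1 x y - r) / β1 x x) ^ 2 * β1 x x
        = 0 := by
      field_simp; linear_combination hr
    have b1 := key _ a1
    have b2 := key _ a2
    have hne : (-β1 x y + r) / β1 x x - (-β1 x y - r) / β1 x x ≠ 0 := by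
      have : (-β1 x y + r) / β1 x x - (-β1 x y - r) / β1 x x = 2 * r / β1 x x := by ring
      rw [this]; exact div_ne_zero (mul_ne_zero two_ne_zero hr0) hx
    generalize (-β1 x y + r) / β1 x x = t1 at *
    generalize (-β1 x y - r) / β1 x x = t2 at *
    have c1 : (t1 - t2) * (β1 x x * β3 x y - β3 x x * β1 x y) = 0 := by
      linear_combination (β1 x x / 2) * (b1 - b2) - (β3 x x / 2) * (a1 - a2)
    have c2 := (mul_eq_zero.1 c1).resolve_left hne
    field_simp
    linear_combination β1 x x * b1 - β3 x x * a1 - 2 * t1 * c2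

lemma quad_div {β : Mat N →ₗ[ℂ] Mat N →ₗ[ℂ] ℂ} (s : ∀ x y, β x y = β y x) {l : Mat N →ₗ[ℂ] ℂ}
    {x : Mat N} (hx : l x = 1) (h : ∀ y, l y = 0 → β y y = 0) :
    ∃ m : Mat N →ₗ[ℂ] ℂ, ∀ y, β y y = l y * m y := by
  refine ⟨(2 : ℂ) • β x - β x x • l, fun y => ?_⟩
  have := h (y - l y • x) (by simp [hx])
  simp only [map_sub, map_smul, LinearMap.sub_apply, LinearMap.smul_apply, smul_eq_mul,
    s y x] at this ⊢
  linear_combination this

lemma exists_lin {i0 i1 : Fin N} (h01 : i0 ≠ i1) {φ : Mat N → Mat N} {p : Mat N → ℂ}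
    (hp : p ∈ Pol (Mat N)) {T0 S0 : Mat N} (h0 : p (br T0 S0) ≠ 0)
    (h : ∀ T S, p (br T S) ≠ 0 → (br (φ T) (φ S) * br (φ T) (φ S)).trace = (br T S * br T S).trace) :
    ∃ q, NZ q ∧ ∃ g : Mat N →ₗ[ℂ] Mat N, ∀ T, q T ≠ 0 →
      ∃ ε η : ℂ, (ε = 1 ∨ ε = -1) ∧ φ T = ε • g T + η • (1 : Mat N) := by
  obtain ⟨q, hq, L, hL, hLq⟩ := exists_Lam hp h0 h
  let P : (Fin N × Fin N) → (Fin N × Fin N) → FF N := fun a b =>
    ⟨fun T => ent i0 a.1 a.2 T * ent i0 b.1 b.2 T, ann_mul_mem (ent_mem _ _ _) (ent_mem _ _ _)⟩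
  let a : Fin N × Fin N := (i0, i1)
  have hrel : ∀ b T, (L (P a a)).1 T * (L (P b b)).1 T = (L (P a b)).1 T ^ 2 := by
    intro b
    refine hq.eq (Pol.mul (FF_pol _) (FF_pol _)) (Pol.pow (FF_pol _) 2) fun T hT => ?_
    rw [hLq _ T hT, hLq _ T hT, hLq _ T hT]
    simp only [P]; ring
  choose β hβs hβ using fun b => FF_quad (L (P a b))
  have hz : ∀ b y, β a y y = 0 → β b y y = 0 := by
    intro b y hy
    have := hrel b y
    rw [hβ, hβ, hy, zero_mul] at this
    exact pow_eq_zero_iff (two_ne_zero) |>.1 this.symm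
  have hx : ∃ x, β a x x ≠ 0 := by
    by_contra hx
    push Not at hx
    have : L (P a a) = 0 := Subtype.ext (funext fun T => by rw [hβ, hx]; rfl)
    have := congrFun (congrArg Subtype.val (hL (this.trans (map_zero L).symm))) (Matrix.single i0 i1 1)
    simp [P, a, ent_apply, h01] at this
  obtain ⟨x, hx⟩ := hx
  rcases quad_sq (hβs a) (hβs (i1, i0)) (hz _) hx with ⟨l, hl⟩ | ⟨c, hc⟩
  · have hlx : l x ≠ 0 := by intro h; apply hx; rw [hl, h]; simp
    have hl1 : l ((l x)⁻¹ • x) = 1 := by simp [hlx]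
    have hm : ∀ b, ∃ m : Mat N →ₗ[ℂ] ℂ, ∀ y, β b y y = l y * m y := fun b =>
      quad_div (hβs b) hl1 fun y hy => hz b y (by rw [hl, hy]; simp)
    choose m hm using hm
    let g : Mat N →ₗ[ℂ] Mat N :=
      { toFun := fun T => Matrix.of fun i j => m (i, j) T
        map_add' := fun _ _ => by ext i j; simp
        map_smul' := fun _ _ => by ext i j; simp }
    refine ⟨fun T => q T * l T, hq.mul ⟨Pol.lin l, x, hlx⟩, g, fun T hT => ?_⟩
    obtain ⟨hT, hlT⟩ := mul_ne_zero_iff.1 hT
    have e : ∀ b : Fin N × Fin N, ent i0 i0 i1 (φ T) * ent i0 b.1 b.2 (φ T) = β b T T := fun b => by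
      rw [← hβ, hLq _ T hT]
    have e1 : ent i0 i0 i1 (φ T) * ent i0 i0 i1 (φ T) = l T ^ 2 := (e a).trans (hl T)
    have e2 : ∀ i j, ent i0 i0 i1 (φ T) * ent i0 i j (φ T) = l T * m (i, j) T := fun i j =>
      (e (i, j)).trans (hm _ T)
    have e3 : (ent i0 i0 i1 (φ T) - l T) * (ent i0 i0 i1 (φ T) + l T) = 0 := by
      linear_combination e1
    rcases mul_eq_zero.1 e3 with e4 | e4
    · refine ⟨1, φ T i0 i0, Or.inl rfl, ?_⟩
      rw [← sub_eq_iff_eq_add]
      ext i j
      have := e2 i j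
      rw [sub_eq_zero.1 e4] at this
      have := mul_left_cancel₀ hlT this
      rw [ent_apply] at this
      rw [this]; simp [g]
    · refine ⟨-1, φ T i0 i0, Or.inr rfl, ?_⟩
      rw [← sub_eq_iff_eq_add]
      ext i j
      have := e2 i j
      rw [eq_neg_of_add_eq_zero_left e4, neg_mul, neg_eq_iff_eq_neg, ← mul_neg] at this
      have := mul_left_cancel₀ hlT this
      rw [ent_apply] at this
      rw [this]; simp [g]
  · exfalso
    have : L (P a (i1, i0)) = L (c • P a a) := by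
      rw [map_smul]
      exact Subtype.ext (funext fun T => by
        rw [hβ, hc]; simp only [Submodule.coe_smul, Pi.smul_apply, smul_eq_mul]; rw [hβ])
    have h2 := congrArg Subtype.val (hL this)
    have h3 := congrFun h2 (Matrix.single i0 i1 1)
    have h4 := congrFun h2 (Matrix.single i0 i1 1 + Matrix.single i1 i0 1)
    simp [P, a, ent_apply, h01, h01.symm] at h3 h4
    rw [← h3] at h4
    exact one_ne_zero h4

end Pool.Agent.H.MP_fda97a_al
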