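import Mathlib
import Pool.Agent.H.MP_fda97a_al.Ver

namespace Pool.Agent.H.MP_fda97a_al
open Pool.Agent.H.MP_296aa8_al Matrix Polynomial

variable {N : ℕ}

lemma curv {V : Type} [AddCommGroup V] {D : V → V → V → V → ℂ}
    (a1 : ∀ x x' y z w, D (x + x') y z w = D x y z w + D x' y z w)
    (a2 : ∀ x y y' z w, D x (y + y') z w = D x y z w + D x y' z w)
    (s34 : ∀ x y z w, D x y z w = - D x y w z) (sp : ∀ x y z w, D x y z w = D z w x y)
    (bi : ∀ x y z w, D x y z w + D x z w y + D x w y z = 0) (h : ∀ x y, D x y x y = 0)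
    (x y z w : V) : D x y z w = 0 := by
  have a3 : ∀ x y z z' w, D x y (z + z') w = D x y z w + D x y z' w := fun x y z z' w => by
    rw [sp, a1, sp z, sp z']
  have a4 : ∀ x y z w w', D x y z (w + w') = D x y z w + D x y z w' := fun x y z w w' => by
    rw [sp, a2, sp z, sp z]
  have h1 : ∀ x y z, D x y z y = 0 := fun x y z => by
    have := h (x + z) y
    rw [a1, a3, a3, h, h, sp z y x y] at this
    linear_combination this / 2
  have h2 : ∀ x y z w, D x y z w + D x w z y = 0 := fun x y z w => by
    have := h1 x (y + w) z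
    rw [a2, a4, a4, h1, h1] at this
    linear_combination this
  have e1 := h2 x y z w
  have e2 := h2 x z w y
  have e3 := s34 x w z y
  have e4 := s34 x y w z
  have e5 := bi x y z w
  linear_combination (e5 + e1 - e3 - e2 + e4) / 3

lemma central (i0 : Fin N) {Y : Mat N} (h : ∀ S, br Y S = 0) : ∃ c : ℂ, Y = c • (1 : Mat N) := by
  refine ⟨Y i0 i0, ?_⟩
  ext k i
  have := congrFun (congrFun (h (Matrix.single i i0 1)) k) i0
  by_cases hk : k = i
  · subst hk
    simp [br, sub_eq_zero] at this
    simp [this]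
  · simp only [br, Matrix.sub_apply, Matrix.single_mul_apply_of_ne _ _ _ _ _ hk,
      Matrix.mul_single_apply_same, mul_one, sub_zero, Matrix.zero_apply] at this
    simp [this, hk]

lemma tr_nondeg {Y : Mat N} (h : ∀ W, (Y * W).trace = 0) : Y = 0 := by
  ext i j
  have := h (Matrix.single j i 1)
  rw [Matrix.trace_mul_single] at this
  simpa using this

lemma tr_br (A B C : Mat N) : (br A B * C).trace = (A * br B C).trace := by
  simp only [br, sub_mul, mul_sub, Matrix.trace_sub, Matrix.mul_assoc]
  rw [Matrix.trace_mul_comm B (A * C), Matrix.mul_assoc]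

lemma Ncast (i0 : Fin N) : (N : ℂ) ≠ 0 := Nat.cast_ne_zero.2 (Fin.pos i0).ne'

lemma scalar_zero (i0 : Fin N) {c : ℂ} (h : (c • (1 : Mat N)).trace = 0) : c = 0 := by
  simp only [Matrix.trace_smul, Matrix.trace_one, Fintype.card_fin, smul_eq_mul] at h
  exact (mul_eq_zero.1 h).resolve_right (Ncast i0)

lemma orth (i0 : Fin N) {Y : Mat N} (ht : Y.trace = 0) (h : ∀ S W, (Y * br S W).trace = 0) :
    Y = 0 := by
  obtain ⟨c, rfl⟩ := central i0 (Y := Y) fun S => tr_nondeg fun W => by rw [tr_br, h]
  rw [scalar_zero i0 ht, zero_smul]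

lemma br_aff (a b c d : ℂ) (A B : Mat N) :
    br (a • A + b • (1 : Mat N)) (c • B + d • (1 : Mat N)) = (a * c) • br A B := by
  simp only [br_add_left, br_add_right, br_smul_left, br_smul_right, br_one_left, br_one_right,
    smul_zero, add_zero, smul_smul, mul_comm]

noncomputable def pr (N : ℕ) : Mat N →ₗ[ℂ] Mat N where
  toFun T := T - (T.trace / N) • (1 : Mat N)
  map_add' _ _ := by simp only [Matrix.trace_add, add_div, add_smul]; abel
  map_smul' _ _ := by
    simp only [Matrix.trace_smul, smul_eq_mul, RingHom.id_apply, smul_sub, smul_smul, mul_div_assoc]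

lemma pr_apply (T : Mat N) : pr N T = T - (T.trace / N) • (1 : Mat N) := rfl

lemma trace_pr (i0 : Fin N) (T : Mat N) : (pr N T).trace = 0 := by
  have := Ncast i0
  simp only [pr_apply, Matrix.trace_sub, Matrix.trace_smul, Matrix.trace_one, Fintype.card_fin,
    smul_eq_mul]
  field_simp; ring

lemma pr_of_trace {T : Mat N} (h : T.trace = 0) : pr N T = T := by simp [pr_apply, h]

lemma pr_one (i0 : Fin N) : pr N (1 : Mat N) = 0 := by
  have := Ncast i0
  simp [pr_apply, this]

lemma br_pr_left (T S : Mat N) : br (pr N T) S = br T S := by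
  simp only [pr_apply, br, sub_mul, mul_sub, Matrix.smul_mul, Matrix.mul_smul, one_mul, mul_one]
  abel

lemma br_pr_right (T S : Mat N) : br S (pr N T) = br S T := by
  rw [br_swap, br_pr_left, ← br_swap]

lemma stepB (i0 : Fin N) {g : Mat N →ₗ[ℂ] Mat N}
    (h : ∀ T S, (br (g T) (g S) * br (g T) (g S)).trace = (br T S * br T S).trace) :
    ∃ G : Mat N ≃ₗ[ℂ] Mat N, (∀ T, (G T).trace = T.trace) ∧ G 1 = 1 ∧
      (∀ T, ∃ c : ℂ, g T = G T + c • (1 : Mat N)) ∧
      ∀ T U S W, (br (G T) (G U) * br (G S) (G W)).trace = (br T U * br S W).trace := by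
  have bi : ∀ x y z w : Mat N, (br x y * br z w).trace + (br x z * br w y).trace +
      (br x w * br y z).trace = 0 := by
    intro x y z w
    rw [tr_br, tr_br, tr_br, ← Matrix.trace_add, ← Matrix.trace_add, ← mul_add, ← mul_add]
    have : br y (br z w) + br z (br w y) + br w (br y z) = 0 := by
      simp only [br]; noncomm_ring
    rw [this]; simp
  have hR : ∀ T U S W, (br (g T) (g U) * br (g S) (g W)).trace = (br T U * br S W).trace := by
    intro T U S W
    refine sub_eq_zero.1 (curv (D := fun T U S W => (br (g T) (g U) * br (g S) (g W)).trace -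
      (br T U * br S W).trace) ?_ ?_ ?_ ?_ ?_ ?_ T U S W)
    · intro x x' y z w
      simp only [map_add, br_add_left, add_mul, Matrix.trace_add]; ring
    · intro x y y' z w
      simp only [map_add, br_add_right, add_mul, Matrix.trace_add]; ring
    · intro x y z w
      rw [br_swap (g z), br_swap z]
      simp only [mul_neg, Matrix.trace_neg]; ring
    · intro x y z w
      rw [Matrix.trace_mul_comm, Matrix.trace_mul_comm (br x y)]
    · intro x y z w
      linear_combination bi (g x) (g y) (g z) (g w) - bi x y z w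
    · intro x y
      rw [h, sub_self]
  let G0 : Mat N →ₗ[ℂ] Mat N := pr N ∘ₗ g ∘ₗ pr N + (LinearMap.id - pr N)
  have G0a : ∀ T, G0 T = pr N (g (pr N T)) + (T.trace / N) • (1 : Mat N) := fun T => by
    simp only [G0, LinearMap.add_apply, LinearMap.comp_apply, LinearMap.sub_apply, LinearMap.id_apply]
    rw [pr_apply T]; abel
  have bl : ∀ T S, br (G0 T) S = br (g (pr N T)) S := fun T S => by
    rw [G0a, br_add_left, br_smul_left, br_one_left, br_pr_left, smul_zero, add_zero]
  have brr : ∀ T S, br S (G0 T) = br S (g (pr N T)) := fun T S => by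
    rw [br_swap, bl, ← br_swap]
  have hG : ∀ T U S W, (br (G0 T) (G0 U) * br (G0 S) (G0 W)).trace = (br T U * br S W).trace := by
    intro T U S W
    simp only [bl, brr, hR, br_pr_left, br_pr_right]
  have hG1 : G0 1 = 1 := by
    have := Ncast i0
    rw [G0a, pr_one i0]; simp [this]
  have hinj : Function.Injective G0 := by
    rw [injective_iff_map_eq_zero]
    intro T hT
    obtain ⟨c, rfl⟩ := central i0 (Y := T) fun U => orth i0 (trace_br _ _) fun S W => by
      rw [← hG, hT]; simp [br]
    rw [map_smul, hG1] at hT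
    exact hT
  have hsurj : Function.Surjective G0 := LinearMap.injective_iff_surjective.1 hinj
  refine ⟨LinearEquiv.ofBijective G0 ⟨hinj, hsurj⟩, fun T => ?_, hG1, fun T => ?_, hG⟩
  · have := Ncast i0
    change (G0 T).trace = _
    rw [G0a, Matrix.trace_add, trace_pr i0]
    simp [this]
  · obtain ⟨c, hc⟩ := central i0 (Y := g 1) fun U => orth i0 (trace_br _ _) fun S W => by
      obtain ⟨U, rfl⟩ := hsurj U
      obtain ⟨S, rfl⟩ := hsurj S
      obtain ⟨W, rfl⟩ := hsurj W
      simp only [bl, brr, hR, br_one_left]; simp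
    refine ⟨(g (pr N T)).trace / N - T.trace / N + T.trace / N * c, ?_⟩
    change g T = G0 T + _
    have : g T = g (pr N T) + (T.trace / N) • g 1 := by
      rw [← map_smul, ← map_add, pr_apply]; congr 1; abel
    rw [this, G0a, hc, pr_apply (g _), add_smul, sub_smul, smul_smul]
    abel

lemma comm_map {i0 i1 : Fin N} (h01 : i0 ≠ i1) (k : Mat N →ₗ[ℂ] Mat N)
    (h : ∀ Y, br Y (k Y) = 0) : ∃ l : ℂ, ∀ Y, ∃ c : ℂ, k Y = l • Y + c • (1 : Mat N) := by
  have hB : ∀ x y, br (k x) y = br x (k y) := fun x y => by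
    have := h (x + y)
    rw [map_add, br_add_left, br_add_right, br_add_right, h, h, zero_add, add_zero,
      br_swap y] at this
    exact (sub_eq_zero.1 (by rw [← this]; abel)).symm
  have d2 : ∀ x y v, br (k x) (y * v) = br (k x) y * v + y * br (k x) v := fun x y v => by
    simp only [br]; noncomm_ring
  have d1 : ∀ x u y, br (k (x * u)) y = x * br (k u) y + br (k x) y * u := fun x u y => by
    rw [hB, hB, hB]; simp only [br]; noncomm_ring
  have i1' : ∀ x y u v, br (k x) y * br u v = br x y * br (k u) v := fun x y u v => by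
    have e1 := d2 (x * u) y v
    rw [d1 x u y, d1 x u v, d1 x u (y * v), d2 u y v, d2 x y v] at e1
    have : br (k x) y * br u v - br x y * br (k u) v =
        ((x * br (k u) y + br (k x) y * u) * v + y * (x * br (k u) v + br (k x) v * u)) -
        (x * (br (k u) y * v + y * br (k u) v) + (br (k x) y * v + y * br (k x) v) * u) := by
      generalize br (k u) y = a; generalize br (k x) y = b; generalize br (k u) v = c
      generalize br (k x) v = d
      simp only [br]; noncomm_ring
    rw [← sub_eq_zero, this, e1, sub_self]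
  have i2 : ∀ x y u v z, br (k x) y * z * br u v = br x y * z * br (k u) v := fun x y u v z => by
    have e1 := i1' x y u (z * v)
    have e2 := i1' x y u z
    have e3 : br u (z * v) = br u z * v + z * br u v := by simp only [br]; noncomm_ring
    rw [d2, e3, mul_add, mul_add, ← mul_assoc, ← mul_assoc, ← mul_assoc, ← mul_assoc, e2] at e1
    exact add_left_cancel e1
  have en : ∀ (M K : Mat N) (i j : Fin N), (M * Matrix.single j i0 (1 : ℂ) * K) i i0 = M i j * K i0 i0 := by
    intro M K i j
    rw [Matrix.mul_apply, Finset.sum_eq_single i0]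
    · simp
    · intro b _ hb
      simp [hb]
    · simp
  let u : Mat N := Matrix.single i0 i1 1
  let v : Mat N := Matrix.single i1 i0 1
  have hb : br u v i0 i0 = 1 := by
    simp [br, u, v, Matrix.single_mul_single_same, h01.symm]
  refine ⟨br (k u) v i0 i0, fun x => ?_⟩
  obtain ⟨c, hc⟩ := central i0 (Y := k x - br (k u) v i0 i0 • x) fun y => by
    have : br (k x - br (k u) v i0 i0 • x) y = br (k x) y - br (k u) v i0 i0 • br x y := by
      rw [sub_eq_add_neg, br_add_left, ← neg_smul, br_smul_left, neg_smul, ← sub_eq_add_neg]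
    rw [this]
    ext i j
    have := congrFun (congrFun (i2 x y u v (Matrix.single j i0 1)) i) i0
    rw [en, en, hb] at this
    simp only [Matrix.sub_apply, Matrix.smul_apply, smul_eq_mul, Matrix.zero_apply]
    linear_combination this
  exact ⟨c, by rw [← hc]; abel⟩

lemma sum_br (i0 : Fin N) {Z : Mat N} (hZ : Z.trace = 0) :
    ∑ j, br (Z * Matrix.single j i0 1) (Matrix.single i0 j 1) = Z := by
  simp only [br, Finset.sum_sub_distrib, Matrix.mul_assoc, Matrix.single_mul_single_same, mul_one]
  have h1 : ∑ j : Fin N, Z * Matrix.single j j (1 : ℂ) = Z := by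
    rw [← Finset.mul_sum, Matrix.sum_single_one, mul_one]
  have h2 : ∑ j : Fin N, Matrix.single i0 j (1 : ℂ) * (Z * Matrix.single j i0 (1 : ℂ)) = 0 := by
    simp only [← Matrix.mul_assoc, Matrix.single_mul_mul_single, one_mul, mul_one]
    ext a b
    rw [Matrix.sum_apply]
    simp only [Matrix.single_apply, Matrix.zero_apply]
    by_cases h : i0 = a ∧ i0 = b
    · simp only [if_pos h]; exact hZ
    · simp [h]
  rw [h1, h2, sub_zero]

lemma stepD {i0 i1 : Fin N} (h01 : i0 ≠ i1) {G : Mat N ≃ₗ[ℂ] Mat N}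
    (ht : ∀ T, (G T).trace = T.trace)
    (hG : ∀ T U S W, (br (G T) (G U) * br (G S) (G W)).trace = (br T U * br S W).trace) :
    ∃ l : ℂ, (∀ T S, br (G T) (G S) = l • G (br T S)) ∧
      ∀ A B : Mat N, A.trace = 0 → B.trace = 0 → (l • G A * l • G B).trace = (A * B).trace := by
  let H : Mat N →ₗ[ℂ] Mat N :=
    { toFun := fun Z => ∑ j, br (G (Z * Matrix.single j i0 1)) (G (Matrix.single i0 j 1))
      map_add' := fun _ _ => by simp only [add_mul, map_add, br_add_left, Finset.sum_add_distrib]
      map_smul' := fun _ _ => by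
        simp only [Matrix.smul_mul, map_smul, br_smul_left, RingHom.id_apply, Finset.smul_sum] }
  have Ha : ∀ Z, H Z = ∑ j, br (G (Z * Matrix.single j i0 1)) (G (Matrix.single i0 j 1)) :=
    fun _ => rfl
  have Ht : ∀ Z, (H Z).trace = 0 := fun Z => by
    rw [Ha, Matrix.trace_sum]; simp [trace_br]
  have H1 : ∀ Z S W, Z.trace = 0 → (H Z * br (G S) (G W)).trace = (Z * br S W).trace := by
    intro Z S W hZ
    rw [Ha, Finset.sum_mul, Matrix.trace_sum]
    simp only [hG]
    rw [← Matrix.trace_sum, ← Finset.sum_mul, sum_br i0 hZ]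
  have H2 : ∀ T U, H (br T U) = br (G T) (G U) := fun T U => by
    refine sub_eq_zero.1 (orth i0 (by rw [Matrix.trace_sub, Ht, trace_br, sub_self]) fun S W => ?_)
    obtain ⟨S, rfl⟩ := G.surjective S
    obtain ⟨W, rfl⟩ := G.surjective W
    rw [sub_mul, Matrix.trace_sub, H1 _ _ _ (trace_br _ _), hG, sub_self]
  obtain ⟨l, hl⟩ := comm_map h01 (H ∘ₗ pr N ∘ₗ G.symm.toLinearMap) fun Y => by
    obtain ⟨U, rfl⟩ := G.surjective Y
    refine tr_nondeg fun S => ?_
    obtain ⟨S, rfl⟩ := G.surjective S
    simp only [LinearMap.comp_apply, LinearEquiv.coe_coe, LinearEquiv.symm_apply_apply]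
    rw [br_swap, neg_mul, Matrix.trace_neg, tr_br, H1 _ _ _ (trace_pr i0 U), ← tr_br, br_pr_left,
      br_self]
    simp
  have H3 : ∀ U : Mat N, U.trace = 0 → H U = l • G U := by
    intro U hU
    obtain ⟨c, hc⟩ := hl (G U)
    simp only [LinearMap.comp_apply, LinearEquiv.coe_coe, LinearEquiv.symm_apply_apply,
      pr_of_trace hU] at hc
    have := congrArg Matrix.trace hc
    rw [Ht, Matrix.trace_add, Matrix.trace_smul, ht, hU, smul_zero, zero_add] at this
    rw [hc, scalar_zero i0 this.symm, zero_smul, add_zero]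
  refine ⟨l, fun T S => by rw [← H2, H3 _ (trace_br _ _)], fun A B hA hB => ?_⟩
  rw [← H3 A hA, ← H3 B hB, Ha B, Finset.mul_sum, Matrix.trace_sum]
  simp only [H1 _ _ _ hA]
  rw [← Matrix.trace_sum, ← Finset.mul_sum, sum_br i0 hB]

lemma skolem (i0 : Fin N) {J : Mat N →ₗ[ℂ] Mat N} (hJ : Function.Injective J)
    (hm : ∀ A B, J (A * B) = J A * J B) : ∃ A : Mat N, IsUnit A ∧ ∀ T, J T = A * T * A⁻¹ := by
  have : ∃ v, J (Matrix.single i0 i0 1) *ᵥ v ≠ 0 := by
    by_contra h
    push Not at h
    have : J (Matrix.single i0 i0 1) = J 0 := by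
      rw [map_zero]; exact Matrix.ext_iff_mulVec.2 fun v => by rw [h, Matrix.zero_mulVec]
    have := congrFun (congrFun (hJ this) i0) i0
    simp at this
  obtain ⟨v, hv⟩ := this
  let A : Mat N := Matrix.of fun i j => (J (Matrix.single j i0 1) *ᵥ v) i
  have hA : ∀ y, A *ᵥ y = J (vecMulVec y (Pi.single i0 1)) *ᵥ v := fun y => by
    have : vecMulVec y (Pi.single i0 (1 : ℂ)) = ∑ j, y j • Matrix.single j i0 (1 : ℂ) := by
      ext a b
      simp [Matrix.sum_apply, Matrix.vecMulVec_apply, Matrix.single_apply, Pi.single_apply,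
        ite_and, eq_comm]
    rw [this, map_sum, Matrix.sum_mulVec]
    ext i
    simp only [map_smul, Matrix.smul_mulVec, Finset.sum_apply, Pi.smul_apply, smul_eq_mul]
    simp only [Matrix.mulVec, dotProduct, A, Matrix.of_apply]
    exact Finset.sum_congr rfl fun j _ => mul_comm _ _
  have hJA : ∀ T, J T * A = A * T := fun T => by
    refine Matrix.ext_iff_mulVec.2 fun y => ?_
    rw [← Matrix.mulVec_mulVec, ← Matrix.mulVec_mulVec, hA, hA, Matrix.mulVec_mulVec, ← hm,
      Matrix.mul_vecMulVec]
  have hU : IsUnit A := by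
    rw [← Matrix.mulVec_injective_iff_isUnit]
    refine (injective_iff_map_eq_zero (Matrix.mulVecLin A)).2 fun y hy => ?_
    ext k
    have hy' : A *ᵥ y = 0 := hy
    have := congrArg (fun z => J (Matrix.single i0 k 1) *ᵥ z) hy'
    simp only [Matrix.mulVec_zero] at this
    rw [Matrix.mulVec_mulVec, hJA, ← Matrix.mulVec_mulVec, hA] at this
    have e : vecMulVec (Matrix.single i0 k (1 : ℂ) *ᵥ y) (Pi.single i0 (1 : ℂ)) =
        y k • Matrix.single i0 i0 (1 : ℂ) := by
      ext a b
      simp [Matrix.vecMulVec_apply, Matrix.single_apply, Pi.single_apply, Matrix.single_mulVec,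
        Function.update_apply, ite_and, eq_comm]
      split_ifs <;> rfl
    rw [e, map_smul, Matrix.smul_mulVec] at this
    exact (smul_eq_zero.1 this).resolve_right hv
  refine ⟨A, hU, fun T => ?_⟩
  rw [← hJA, Matrix.mul_assoc, Matrix.mul_nonsing_inv _ ((Matrix.isUnit_iff_isUnit_det A).1 hU),
    Matrix.mul_one]

end Pool.Agent.H.MP_fda97a_al
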