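import Mathlib
import Pool.Agent.H.MP_fda97a_al.Lie

namespace Pool.Agent.H.MP_fda97a_al
open Pool.Agent.H.MP_296aa8_al Matrix Polynomial

variable {N : ℕ}

lemma tr2 {A B : Mat N} (hA : A.trace = 0) (hB : B.trace = 0) (a b : ℂ) :
    ((A + a • (1 : Mat N)) * (B + b • (1 : Mat N))).trace = (A * B).trace + a * b * N := by
  simp only [add_mul, mul_add, Matrix.smul_mul, Matrix.mul_smul, one_mul, mul_one, Matrix.trace_add,
    Matrix.trace_smul, hA, hB, Matrix.trace_one, Fintype.card_fin, smul_eq_mul]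
  ring

lemma tr3 {A : Mat N} (hA : A.trace = 0) (a : ℂ) :
    ((A + a • (1 : Mat N)) ^ 3).trace = (A ^ 3).trace + 3 * a * (A * A).trace + a ^ 3 * N := by
  simp only [pow_succ, pow_zero, add_mul, mul_add, Matrix.smul_mul, Matrix.mul_smul, one_mul, mul_one,
    Matrix.trace_add, Matrix.trace_smul, hA, Matrix.trace_one, Fintype.card_fin, smul_eq_mul]
  ring

lemma pol3 (A B C : Mat N) :
    ((A + B + C) ^ 3).trace - ((A + B) ^ 3).trace - ((A + C) ^ 3).trace - ((B + C) ^ 3).trace +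
      (A ^ 3).trace + (B ^ 3).trace + (C ^ 3).trace = 3 * ((A * B + B * A) * C).trace := by
  have : (A + B + C) ^ 3 - (A + B) ^ 3 - (A + C) ^ 3 - (B + C) ^ 3 + A ^ 3 + B ^ 3 + C ^ 3 =
      (A * B + B * A) * C + C * (A * B + B * A) + (A * (C * B) + B * (C * A)) := by
    noncomm_ring
  have h := congrArg Matrix.trace this
  simp only [Matrix.trace_add, Matrix.trace_sub] at h
  rw [h, Matrix.trace_mul_comm C, Matrix.trace_mul_comm A (C * B), Matrix.trace_mul_comm B (C * A),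
    Matrix.mul_assoc C, Matrix.mul_assoc C, Matrix.trace_mul_comm C, Matrix.trace_mul_comm C,
    add_mul, Matrix.trace_add]
  ring

lemma sgn3 {a b c C C0 : ℂ} (ha : a = 1 ∨ a = -1) (hb : b = 1 ∨ b = -1) (hc : c = 1 ∨ c = -1)
    (h1 : (a * b) ^ 3 * C = C0) (h2 : (a * c) ^ 3 * C = C0) (h3 : (c * b) ^ 3 * C = C0) :
    C = C0 := by
  rcases ha with rfl | rfl <;> rcases hb with rfl | rfl <;> rcases hc with rfl | rfl <;>
    first
    | linear_combination h1
    | linear_combination h2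
    | linear_combination h3

def Form (A : Mat N) (φ : Mat N → Mat N) (T : Mat N) : Prop :=
  ∃ ε η : ℂ, (ε = 1 ∨ ε = -1) ∧ φ T = ε • (A * T * A⁻¹) + η • (1 : Mat N)

def FormT (A : Mat N) (φ : Mat N → Mat N) (T : Mat N) : Prop :=
  ∃ ε η : ℂ, (ε = 1 ∨ ε = -1) ∧ φ T = (Complex.I * ε) • (A * Tᵀ * A⁻¹) + η • (1 : Mat N)

theorem core {i0 i1 : Fin N} (h01 : i0 ≠ i1) {φ : Mat N → Mat N} {p : Mat N → ℂ}
    (hp : p ∈ Pol (Mat N)) {T0 S0 : Mat N} (h0 : p (br T0 S0) ≠ 0)
    (h : ∀ T S k, p (br T S) ≠ 0 → (br (φ T) (φ S) ^ k).trace = (br T S ^ k).trace) :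
    ∃ q, NZ q ∧ ∃ A : Mat N, IsUnit A ∧
      ((∀ T, q T ≠ 0 → Form A φ T) ∨ (∀ T, q T ≠ 0 → FormT A φ T)) := by
  have h2 : ∀ T S, p (br T S) ≠ 0 →
      (br (φ T) (φ S) * br (φ T) (φ S)).trace = (br T S * br T S).trace := fun T S hp => by
    simpa only [pow_two] using h T S 2 hp
  obtain ⟨q, hq, g, hg⟩ := exists_lin h01 hp h0 h2
  have f1 : PMap (fun w : Mat N × Mat N => w.1) := PMap.id.fst
  have f2 : PMap (fun w : Mat N × Mat N => w.2) := PMap.id.snd
  have n1 : NZ (fun w : Mat N × Mat N => q w.1) :=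
    hq.comp (LinearMap.fst ℂ (Mat N) (Mat N)) fun T => ⟨(T, 0), rfl⟩
  have n2 : NZ (fun w : Mat N × Mat N => q w.2) :=
    hq.comp (LinearMap.snd ℂ (Mat N) (Mat N)) fun T => ⟨(0, T), rfl⟩
  have n3 : NZ (fun w : Mat N × Mat N => q (w.1 + w.2)) :=
    hq.comp (LinearMap.fst ℂ (Mat N) (Mat N) + LinearMap.snd ℂ (Mat N) (Mat N)) fun T => ⟨(T, 0), by simp⟩
  have n4 : NZ (fun w : Mat N × Mat N => p (br w.1 w.2)) :=
    ⟨Pol.comp (pm_br f1 f2) hp, (T0, S0), h0⟩
  have hQ : ∀ T S, (br (g T) (g S) * br (g T) (g S)).trace = (br T S * br T S).trace := by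
    intro T S
    have b1 := pm_br ((PMap.lin g).comp f1) ((PMap.lin g).comp f2)
    refine ((n1.mul n2).mul n4).eq (pm_trace (b1.mul b1))
      (pm_trace ((pm_br f1 f2).mul (pm_br f1 f2))) (fun w hw => ?_) (T, S)
    obtain ⟨hw, hw3⟩ := mul_ne_zero_iff.1 hw
    obtain ⟨hw1, hw2⟩ := mul_ne_zero_iff.1 hw
    obtain ⟨e1, c1, he1, hf1⟩ := hg _ hw1
    obtain ⟨e2, c2, he2, hf2⟩ := hg _ hw2
    have := h2 _ _ hw3
    rw [hf1, hf2, br_aff, Matrix.smul_mul, Matrix.mul_smul, Matrix.trace_smul, Matrix.trace_smul] at this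
    rw [← this]
    rcases he1 with rfl | rfl <;> rcases he2 with rfl | rfl <;> simp
  obtain ⟨G, hGt, hG1, hgG, hG⟩ := stepB i0 hQ
  have hG' : ∀ T, q T ≠ 0 → ∃ ε η : ℂ, (ε = 1 ∨ ε = -1) ∧ φ T = ε • G T + η • (1 : Mat N) := by
    intro T hT
    obtain ⟨e, c, he, hf⟩ := hg T hT
    obtain ⟨d, hd⟩ := hgG T
    exact ⟨e, e * d + c, he, by rw [hf, hd, smul_add, smul_smul, add_smul, add_assoc]⟩
  obtain ⟨l, hl, hiso⟩ := stepD h01 hGt hG
  have pC : PMap (fun A : Mat N => l • G A) := PMap.lin (l • G.toLinearMap)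
  have hC : ∀ T S, ((l • G (br T S)) ^ 3).trace = (br T S ^ 3).trace := by
    by_contra hC
    push Not at hC
    obtain ⟨T1, S1, h1⟩ := hC
    have n5 : NZ (fun w : Mat N × Mat N => ((l • G (br w.1 w.2)) ^ 3).trace - (br w.1 w.2 ^ 3).trace) :=
      ⟨Pol.sub (pm_trace (pm_pow (pC.comp (pm_br f1 f2)) 3)) (pm_trace (pm_pow (pm_br f1 f2) 3)),
        (T1, S1), sub_ne_zero.2 h1⟩
    obtain ⟨⟨T, S⟩, hw⟩ := ((((n1.mul n2).mul n3).mul n4).mul n5).2
    simp only [mul_ne_zero_iff] at hw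
    obtain ⟨⟨⟨⟨hw1, hw2⟩, hw3⟩, hw4⟩, hw5⟩ := hw
    obtain ⟨e1, c1, he1, hf1⟩ := hG' _ hw1
    obtain ⟨e2, c2, he2, hf2⟩ := hG' _ hw2
    obtain ⟨e3, c3, he3, hf3⟩ := hG' _ hw3
    have b1 : br T (T + S) = br T S := by rw [br_add_right, br_self, zero_add]
    have b2 : br (T + S) S = br T S := by rw [br_add_left, br_self, add_zero]
    have k1 := h T S 3 hw4
    have k2 := h T (T + S) 3 (by rwa [b1])
    have k3 := h (T + S) S 3 (by rwa [b2])
    rw [hf1, hf2, br_aff, hl, _root_.smul_pow, Matrix.trace_smul] at k1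
    rw [hf1, hf3, br_aff, hl, b1, _root_.smul_pow, Matrix.trace_smul] at k2
    rw [hf3, hf2, br_aff, hl, b2, _root_.smul_pow, Matrix.trace_smul] at k3
    exact hw5 (sub_eq_zero.2 (sgn3 he1 he2 he3 k1 k2 k3))
  have hC' : ∀ A, ((l • G (pr N A)) ^ 3).trace = (pr N A ^ 3).trace := by
    obtain ⟨d, hd, hs⟩ := exists_diag N
    have hn : NZ (fun A => disc (pr N A)) := ⟨pm_disc (PMap.lin _), diagonal d, by
      beta_reduce
      rw [pr_of_trace (by rw [Matrix.trace_diagonal, hs])]; exact disc_diag hd⟩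
    refine hn.eq (pm_trace (pm_pow (pC.comp (PMap.lin _)) 3)) (pm_trace (pm_pow (PMap.lin _) 3))
      fun A hA => ?_
    obtain ⟨T, S, hTS⟩ := br_of_disc hA (trace_pr i0 A)
    rw [← hTS, hC]
  let J : Mat N →ₗ[ℂ] Mat N := l • (G.toLinearMap ∘ₗ pr N) + (LinearMap.id - pr N)
  have Ja : ∀ T, J T = l • G (pr N T) + (T.trace / N) • (1 : Mat N) := fun T => by
    simp only [J, LinearMap.add_apply, LinearMap.comp_apply, LinearMap.sub_apply, LinearMap.id_apply,
      LinearMap.smul_apply, LinearEquiv.coe_coe]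
    rw [pr_apply T]; abel
  have hpr : ∀ T : Mat N, T = pr N T + (T.trace / N) • (1 : Mat N) := fun T => by
    rw [pr_apply]; abel
  have ht0 : ∀ T, (l • G (pr N T)).trace = 0 := fun T => by
    rw [Matrix.trace_smul, hGt, trace_pr i0, smul_zero]
  have J2 : ∀ A B, (J A * J B).trace = (A * B).trace := fun A B => by
    conv_rhs => rw [hpr A, hpr B, tr2 (trace_pr i0 _) (trace_pr i0 _)]
    rw [Ja, Ja, tr2 (ht0 _) (ht0 _), hiso _ _ (trace_pr i0 _) (trace_pr i0 _)]
  have J3 : ∀ A, (J A ^ 3).trace = (A ^ 3).trace := fun A => by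
    conv_rhs => rw [hpr A, tr3 (trace_pr i0 _)]
    rw [Ja, tr3 (ht0 _), hiso _ _ (trace_pr i0 _) (trace_pr i0 _), hC']
  have Jinj : Function.Injective J := by
    rw [injective_iff_map_eq_zero]
    intro A hA
    exact tr_nondeg fun W => by rw [← J2, hA]; simp
  have Jsurj : Function.Surjective J := LinearMap.injective_iff_surjective.1 Jinj
  have Jjor : ∀ A B, J (A * B + B * A) = J A * J B + J B * J A := fun A B => by
    refine sub_eq_zero.1 (tr_nondeg fun W => ?_)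
    obtain ⟨C, rfl⟩ := Jsurj W
    have e1 := pol3 A B C
    have e2 := pol3 (J A) (J B) (J C)
    simp only [← map_add, J3] at e2
    rw [sub_mul, Matrix.trace_sub, J2]
    linear_combination (e2 - e1) / 3
  have Jlie : ∀ A B, br (J A) (J B) = (l * l) • J (br A B) := fun A B => by
    rw [Ja, Ja, br_aff, hl, br_pr_left, br_pr_right, Ja, pr_of_trace (trace_br A B), trace_br]
    simp
  have hmu : (l * l) * (l * l) = 1 := by
    have e : ∀ A B C : Mat N, br B (br A C) = ((A * B + B * A) * C + C * (A * B + B * A)) -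
        (A * (B * C + C * B) + (B * C + C * B) * A) := fun A B C => by
      simp only [br]; noncomm_ring
    have e1 : ∀ A B C : Mat N, J (br B (br A C)) = br (J B) (br (J A) (J C)) := fun A B C => by
      rw [e, e, map_sub, Jjor, Jjor, Jjor, Jjor]
    let u : Mat N := Matrix.single i0 i1 1
    let v : Mat N := Matrix.single i1 i0 1
    have e2 := e1 u u v
    rw [Jlie, br_smul_right, Jlie, smul_smul] at e2
    by_contra hne
    have e3 : (1 - l * l * (l * l)) • J (br u (br u v)) = 0 := by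
      rw [sub_smul, one_smul, ← e2, sub_self]
    have e4 := (smul_eq_zero.1 e3).resolve_left (sub_ne_zero.2 (Ne.symm hne))
    have e5 := congrFun (congrFun (Jinj (e4.trans (map_zero J).symm)) i0) i1
    simp [br, u, v, mul_sub, sub_mul, Matrix.single_mul_single_same, h01.symm] at e5
    norm_num at e5
  have hGJ : ∀ T, ∃ c : ℂ, G T = (l * (l * l)) • J T + c • (1 : Mat N) := fun T => by
    refine ⟨T.trace / N - l * (l * l) * (T.trace / N), ?_⟩
    rw [Ja, smul_add, smul_smul, smul_smul]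
    conv_lhs => rw [hpr T, map_add, map_smul, hG1]
    have : l * (l * l) * l = 1 := by linear_combination hmu
    rw [this, one_smul, sub_smul]; abel
  have hsplit : ∀ A B : Mat N, A * B = (1 / 2 : ℂ) • ((A * B + B * A) + br A B) := fun A B => by
    have : (A * B + B * A) + br A B = (2 : ℂ) • (A * B) := by rw [br, two_smul]; abel
    rw [this, smul_smul]; simp
  refine ⟨q, hq, ?_⟩
  have hm : (l * l - 1) * (l * l + 1) = 0 := by linear_combination hmu
  rcases mul_eq_zero.1 hm with hm | hm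
  · have hm1 : l * l = 1 := sub_eq_zero.1 hm
    obtain ⟨A, hA, hJ⟩ := skolem i0 Jinj fun A B => by
      rw [hsplit A B, hsplit (J A) (J B), map_smul, map_add, Jjor, Jlie, hm1, one_smul]
    refine ⟨A, hA, Or.inl fun T hT => ?_⟩
    obtain ⟨e, c, he, hf⟩ := hG' T hT
    obtain ⟨d, hd⟩ := hGJ T
    refine ⟨e * l, e * d + c, ?_, ?_⟩
    · rcases mul_self_eq_one_iff.1 hm1 with rfl | rfl <;> rcases he with rfl | rfl <;> simp
    · rw [hf, hd, hm1, hJ, mul_one, smul_add, smul_smul, smul_smul, add_smul, add_assoc]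
  · have hm1 : l * l = -1 := eq_neg_of_add_eq_zero_left hm
    obtain ⟨A, hA, hJ⟩ := skolem i0 (J := J ∘ₗ (Matrix.transposeLinearEquiv (Fin N) (Fin N) ℂ ℂ).toLinearMap)
      (Jinj.comp (Matrix.transposeLinearEquiv (Fin N) (Fin N) ℂ ℂ).injective) fun A B => by
        change J (A * B)ᵀ = J Aᵀ * J Bᵀ
        rw [Matrix.transpose_mul, hsplit Bᵀ Aᵀ, hsplit (J Aᵀ) (J Bᵀ), map_smul, map_add, Jjor, Jlie,
          hm1, br_swap Aᵀ, map_neg, add_comm (J Aᵀ * J Bᵀ)]
        simp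
    refine ⟨A, hA, Or.inr fun T hT => ?_⟩
    obtain ⟨e, c, he, hf⟩ := hG' T hT
    obtain ⟨d, hd⟩ := hGJ T
    have hJT : J T = A * Tᵀ * A⁻¹ := hJ Tᵀ
    refine ⟨e * l * Complex.I, e * d + c, ?_, ?_⟩
    · have : (l - Complex.I) * (l + Complex.I) = 0 := by
        linear_combination hm1 - Complex.I_mul_I
      rcases mul_eq_zero.1 this with h | h
      · rw [sub_eq_zero.1 h]
        rcases he with rfl | rfl <;> simp
      · rw [eq_neg_of_add_eq_zero_left h]
        rcases he with rfl | rfl <;> simp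
    · have : Complex.I * (e * l * Complex.I) = e * (l * -1) := by
        linear_combination e * l * Complex.I_mul_I
      rw [hf, hd, hm1, hJT, this, smul_add, smul_smul, smul_smul, add_smul, add_assoc]

end Pool.Agent.H.MP_fda97a_al
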