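import Mathlib
import Pool.Agent.H.MP_fda97a_al.Core

namespace Pool.Agent.H.MP_fda97a_al
open Pool.Agent.H.MP_296aa8_al Matrix Polynomial

variable {N : ℕ}

lemma pol_dot {W : Type} [AddCommGroup W] [Module ℂ W] {F G : W → Fin N → ℂ} (hF : PMap F)
    (hG : PMap G) : (fun w => F w ⬝ᵥ G w) ∈ Pol W :=
  Pol.sum _ fun i => Pol.mul (hF (LinearMap.proj i)) (hG (LinearMap.proj i))

lemma br_rank (T : Mat N) (x f v : Fin N → ℂ) :
    br T (vecMulVec x f) *ᵥ v = (f ⬝ᵥ v) • T *ᵥ x - (f ⬝ᵥ T *ᵥ v) • x := by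
  rw [br, Matrix.sub_mulVec, ← Matrix.mulVec_mulVec, ← Matrix.mulVec_mulVec,
    Matrix.vecMulVec_mulVec, Matrix.vecMulVec_mulVec]
  simp [Matrix.mulVec_smul]

lemma left_rank (T : Mat N) {x f : Fin N → ℂ} (h : f ⬝ᵥ x = 0) :
    f ᵥ* br T (vecMulVec x f) = (f ⬝ᵥ T *ᵥ x) • f := by
  refine (dotProduct_eq_iff.1 fun v => ?_)
  rw [← Matrix.dotProduct_mulVec, br_rank]
  simp [dotProduct_sub, h, mul_comm]

lemma ev_rank {T : Mat N} {x f : Fin N → ℂ} (h : f ⬝ᵥ x = 0) {μ : ℂ}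
    (hμ : Ev (br T (vecMulVec x f)) μ) : μ = 0 ∨ μ = f ⬝ᵥ T *ᵥ x ∨ μ = -(f ⬝ᵥ T *ᵥ x) := by
  obtain ⟨v, hv, e⟩ := hμ
  by_cases h0 : μ = 0
  · exact Or.inl h0
  right
  rw [br_rank] at e
  by_cases hf : f ⬝ᵥ v = 0
  · right
    rw [hf, zero_smul, zero_sub] at e
    have e2 := congrArg (fun z => f ⬝ᵥ T *ᵥ z) e
    simp only [Matrix.mulVec_neg, Matrix.mulVec_smul, dotProduct_neg, dotProduct_smul,
      smul_eq_mul] at e2
    have : f ⬝ᵥ T *ᵥ v ≠ 0 := by
      intro h1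
      rw [h1, zero_smul, neg_zero] at e
      exact hv ((smul_eq_zero.1 e.symm).resolve_left h0)
    apply mul_left_cancel₀ this
    linear_combination -e2
  · left
    have e2 := congrArg (fun z => f ⬝ᵥ z) e
    simp only [dotProduct_sub, dotProduct_smul, h, smul_eq_mul] at e2
    apply mul_left_cancel₀ hf
    linear_combination -e2

abbrev W3 (N : ℕ) := (Fin N → ℂ) × (Fin N → ℂ) × (Fin N → ℂ)

def fw (w : W3 N) : Fin N → ℂ := (w.2.1 ⬝ᵥ w.1) • w.2.2 - (w.2.2 ⬝ᵥ w.1) • w.2.1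

lemma fw_dot (w : W3 N) : fw w ⬝ᵥ w.1 = 0 := by
  simp [fw, sub_dotProduct, mul_comm]

lemma pm_fw : PMap (fw : W3 N → _) :=
  pm_sub (pm_smul (pol_dot PMap.id.snd.fst PMap.id.fst) PMap.id.snd.snd)
    (pm_smul (pol_dot PMap.id.snd.snd PMap.id.fst) PMap.id.snd.fst)

lemma nz_FA (i0 : Fin N) {a : Mat N} (ha : ¬ ∃ c : ℂ, a = c • (1 : Mat N)) :
    NZ (fun w : W3 N => fw w ⬝ᵥ a *ᵥ w.1) := by
  refine ⟨pol_dot pm_fw ((PMap.lin (Matrix.mulVecLin a)).comp PMap.id.fst), ?_⟩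
  by_contra h
  push Not at h
  apply ha
  have h1 : ∀ i j, i ≠ j → a j i = 0 := fun i j hij => by
    have := h (Pi.single i 1, Pi.single i 1, Pi.single j 1)
    simpa [fw, hij, hij.symm] using this
  refine ⟨a i0 i0, ?_⟩
  ext j i
  by_cases hij : i = j
  · subst hij
    by_cases h0 : i = i0
    · simp [h0]
    · have := h (Pi.single i 1 + Pi.single i0 1, Pi.single i0 1, Pi.single i 1)
      simp [fw, h0, Ne.symm h0, Matrix.mulVec_add, sub_dotProduct, h1 _ _ h0, h1 _ _ (Ne.symm h0),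
        add_neg_eq_zero] at this
      simp [this]
  · simp [h1 _ _ hij, Ne.symm hij]

lemma nz_fw {i0 i1 : Fin N} (h01 : i0 ≠ i1) {x0 : Fin N → ℂ} (hx : x0 ≠ 0) :
    NZ (fun w : W3 N => fw w ⬝ᵥ x0) := by
  refine ⟨pol_dot pm_fw (PMap.const _), ?_⟩
  obtain ⟨k, hk⟩ := Function.ne_iff.1 hx
  have : ∃ j, j ≠ k := by
    by_cases h : i0 = k
    · exact ⟨i1, fun h1 => h01 (h.trans h1.symm)⟩
    · exact ⟨i0, h⟩
  obtain ⟨j, hj⟩ := this
  refine ⟨(Pi.single j 1, Pi.single j 1, Pi.single k 1), ?_⟩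
  simpa [fw, hj, hj.symm] using hk

lemma extE {i0 i1 : Fin N} (h01 : i0 ≠ i1) {T T' : Mat N} {x0 : Fin N → ℂ} (hx : x0 ≠ 0)
    {q : Mat N → ℂ} (hq : NZ q) (hT : ¬ ∃ c : ℂ, T = c • (1 : Mat N))
    (h : ∀ S, q S ≠ 0 → ∀ μ, LS (br T S) x0 μ → Ev (br T' S) μ ∨ Ev (br T' S) (-μ)) :
    ∃ ε η : ℂ, (ε = 1 ∨ ε = -1) ∧ T' = ε • T + η • (1 : Mat N) := by
  have key : ∀ x f : Fin N → ℂ, f ⬝ᵥ x = 0 → f ⬝ᵥ x0 ≠ 0 →
      f ⬝ᵥ T *ᵥ x = 0 ∨ f ⬝ᵥ T *ᵥ x = f ⬝ᵥ T' *ᵥ x ∨ f ⬝ᵥ T *ᵥ x = -(f ⬝ᵥ T' *ᵥ x) := by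
    intro x f hf hf0
    have b1 : PMap (fun S : Mat N => br T S) := pm_br (PMap.const _) PMap.id
    have b2 : PMap (fun S : Mat N => br T' S) := pm_br (PMap.const _) PMap.id
    have := hq.ext (pm_pow ((pm_aeval b1 b2).mul (pm_aeval b1 (pm_neg b2))) (Fintype.card (Fin N))
      (af f x0)) (fun S hS => by
        beta_reduce
        rw [← map_mul, ← map_pow, af_apply, kill_of_LS, dotProduct_zero]
        intro μ hμ
        rw [Polynomial.eval_mul, mul_eq_zero, ← ev_iff_root, ← ev_iff_root, ev_neg]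
        exact h S hS μ hμ) (vecMulVec x f)
    beta_reduce at this
    rw [← map_mul, ← map_pow, af_apply, Matrix.dotProduct_mulVec, aeval_eigL (left_rank T hf),
      smul_dotProduct, smul_eq_mul, Polynomial.eval_pow, Polynomial.eval_mul] at this
    have := pow_eq_zero_iff'.1 ((mul_eq_zero.1 this).resolve_right hf0) |>.1
    rw [mul_eq_zero, ← ev_iff_root, ← ev_iff_root, ev_neg] at this
    rcases this with h1 | h1
    · exact ev_rank hf h1
    · rcases ev_rank hf h1 with h2 | h2 | h2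
      · left; linear_combination -h2
      · right; right; linear_combination -h2
      · right; left; linear_combination -h2
  by_cases h1 : ∃ c : ℂ, T - T' = c • (1 : Mat N)
  · obtain ⟨c, hc⟩ := h1
    exact ⟨1, -c, Or.inl rfl, by rw [neg_smul, ← hc, one_smul]; abel⟩
  by_cases h2 : ∃ c : ℂ, T + T' = c • (1 : Mat N)
  · obtain ⟨c, hc⟩ := h2
    exact ⟨-1, c, Or.inr rfl, by rw [neg_smul, ← hc, one_smul]; abel⟩
  exfalso
  obtain ⟨w, hw⟩ := ((((nz_fw h01 hx).mul (nz_FA i0 hT)).mul (nz_FA i0 h1)).mul (nz_FA i0 h2)).2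
  simp only [mul_ne_zero_iff, Matrix.sub_mulVec, Matrix.add_mulVec, dotProduct_sub,
    dotProduct_add] at hw
  obtain ⟨⟨⟨a1, a2⟩, a3⟩, a4⟩ := hw
  rcases key w.1 (fw w) (fw_dot w) a1 with h | h | h
  · exact a2 h
  · exact a3 (sub_eq_zero.2 h)
  · exact a4 (by rw [h]; simp)

lemma ev_zero {μ : ℂ} (h : Ev (0 : Mat N) μ) : μ = 0 := by
  obtain ⟨v, hv, e⟩ := h
  rw [Matrix.zero_mulVec] at e
  exact (smul_eq_zero.1 e.symm).resolve_right hv

lemma scal_of {i0 i1 : Fin N} (h01 : i0 ≠ i1) {T : Mat N} {x0 : Fin N → ℂ} (hx : x0 ≠ 0)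
    {q : Mat N → ℂ} (hq : NZ q) (h : ∀ S, q S ≠ 0 → ∀ μ, LS (br T S) x0 μ → μ = 0) :
    ∃ c : ℂ, T = c • (1 : Mat N) := by
  by_contra hT
  obtain ⟨e, c, he, hc⟩ := extE (T' := 0) h01 hx hq hT fun S hS μ hμ => by
    left
    rw [h S hS μ hμ]
    exact ⟨x0, hx, by simp [br]⟩
  apply hT
  rcases he with rfl | rfl
  · exact ⟨-c, by rw [neg_smul, eq_neg_iff_add_eq_zero, hc, one_smul]⟩
  · refine ⟨c, ?_⟩
    rw [neg_smul, one_smul, neg_add_eq_sub] at hc
    exact (sub_eq_zero.1 hc.symm).symm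

lemma aeval_conj {B : Mat N} (hB : IsUnit B) (A : Mat N) (f : ℂ[X]) :
    aeval (B * A * B⁻¹) f = B * aeval A f * B⁻¹ := by
  induction f using Polynomial.induction_on' with
  | add p q hp hq => simp [hp, hq, mul_add, add_mul]
  | monomial k a =>
    rw [Polynomial.aeval_monomial, Polynomial.aeval_monomial, ← Algebra.smul_def, ← Algebra.smul_def,
      conj_pow hB, Matrix.mul_smul, Matrix.smul_mul]

lemma LS_conj {B : Mat N} (hB : IsUnit B) (A : Mat N) (x : Fin N → ℂ) (μ : ℂ) :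
    LS (B * A * B⁻¹) x μ ↔ LS A (B⁻¹ *ᵥ x) μ := by
  refine forall_congr' fun f => imp_congr_left ?_
  rw [aeval_conj hB, ← Matrix.mulVec_mulVec, ← Matrix.mulVec_mulVec]
  constructor
  · intro h
    exact (Matrix.mulVec_injective_iff_isUnit.2 hB) (by rw [h, Matrix.mulVec_zero])
  · intro h; rw [h, Matrix.mulVec_zero]

lemma LS_neg {A : Mat N} {x : Fin N → ℂ} {μ : ℂ} (h : LS A x μ) : LS (-A) x (-μ) := by
  intro f hf
  have := h (f.comp (-X)) (by rw [Polynomial.aeval_comp]; simpa using hf)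
  simpa [Polynomial.eval_comp] using this

lemma LS_sgn {A : Mat N} {x : Fin N → ℂ} {μ e : ℂ} (he : e = 1 ∨ e = -1) (h : LS A x μ) :
    LS (e • A) x (e * μ) := by
  rcases he with rfl | rfl
  · simpa using h
  · simpa using LS_neg h

lemma ev_sgn {A : Mat N} {μ e : ℂ} (he : e = 1 ∨ e = -1) (h : Ev (e • A) μ) :
    Ev A μ ∨ Ev A (-μ) := by
  rcases he with rfl | rfl
  · left; simpa using h
  · right; rw [← ev_neg]; simpa using h

lemma inv_ne {B : Mat N} (hB : IsUnit B) {x : Fin N → ℂ} (hx : x ≠ 0) : B⁻¹ *ᵥ x ≠ 0 := by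
  intro h
  apply hx
  have := congrArg (fun z => B *ᵥ z) h
  simpa [Matrix.mulVec_mulVec, Matrix.mul_nonsing_inv _ ((Matrix.isUnit_iff_isUnit_det B).1 hB)]
    using this

lemma conj_back {B : Mat N} (hB : IsUnit B) (Y : Mat N) : B * (B⁻¹ * Y * B) * B⁻¹ = Y := by
  have hd := (Matrix.isUnit_iff_isUnit_det B).1 hB
  simp only [← Matrix.mul_assoc, Matrix.mul_nonsing_inv _ hd, Matrix.one_mul]
  rw [Matrix.mul_assoc, Matrix.mul_nonsing_inv _ hd, Matrix.mul_one]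

lemma conj_aff {B : Mat N} (hB : IsUnit B) (a b : ℂ) (Y : Mat N) :
    B * (a • Y + b • (1 : Mat N)) * B⁻¹ = a • (B * Y * B⁻¹) + b • (1 : Mat N) := by
  have hd := (Matrix.isUnit_iff_isUnit_det B).1 hB
  simp only [mul_add, add_mul, Matrix.mul_smul, Matrix.smul_mul, mul_one,
    Matrix.mul_nonsing_inv _ hd]

lemma br_transpose (T S : Mat N) : br Tᵀ Sᵀ = - (br T S)ᵀ := by
  simp [br, Matrix.transpose_sub, Matrix.transpose_mul]

lemma br_form {B : Mat N} (hB : IsUnit B) (a b c d : ℂ) (T S : Mat N) :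
    br (a • (B * T * B⁻¹) + b • (1 : Mat N)) (c • (B * S * B⁻¹) + d • (1 : Mat N)) =
      B * ((a * c) • br T S) * B⁻¹ := by
  rw [br_aff, br_conj hB, Matrix.mul_smul, Matrix.smul_mul]

lemma br_formT {B : Mat N} (hB : IsUnit B) (a b c d : ℂ) (T S : Mat N) :
    br ((Complex.I * a) • (B * Tᵀ * B⁻¹) + b • (1 : Mat N))
      ((Complex.I * c) • (B * Sᵀ * B⁻¹) + d • (1 : Mat N)) =
      B * ((a * c) • (br T S)ᵀ) * B⁻¹ := by
  rw [br_form hB, br_transpose, smul_neg, ← neg_smul]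
  congr 3
  linear_combination -a * c * Complex.I_mul_I

theorem ext_form {i0 i1 : Fin N} (h01 : i0 ≠ i1) {φ : Mat N → Mat N} {x0 : Fin N → ℂ} (hx : x0 ≠ 0)
    (h1 : ∀ T S μ, LS (br T S) x0 μ → Ev (br (φ T) (φ S)) μ)
    (h2 : ∀ T S μ, LS (br (φ T) (φ S)) x0 μ → Ev (br T S) μ)
    {q : Mat N → ℂ} (hq : NZ q) {A : Mat N} (hA : IsUnit A) :
    ((∀ T, q T ≠ 0 → Form A φ T) → ∀ T, Form A φ T) ∧
    ((∀ T, q T ≠ 0 → FormT A φ T) → ∀ T, FormT A φ T) := by
  constructor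
  · intro h T
    obtain ⟨T', hT'⟩ : ∃ T', φ T = (1 : ℂ) • (A * T' * A⁻¹) + (0 : ℂ) • (1 : Mat N) :=
      ⟨A⁻¹ * φ T * A, by rw [conj_back hA]; simp⟩
    have : ∃ ε η : ℂ, (ε = 1 ∨ ε = -1) ∧ T' = ε • T + η • (1 : Mat N) := by
      by_cases hT : ∃ c : ℂ, T = c • (1 : Mat N)
      · obtain ⟨c, rfl⟩ := hT
        obtain ⟨d, hd⟩ := scal_of (T := T') h01 (inv_ne hA hx) hq fun S hS μ hμ => by
          obtain ⟨e, η, he, hf⟩ := h S hS
          have := h2 (c • 1) S (e * μ) (by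
            rw [hT', hf, br_form hA, LS_conj hA, one_mul]; exact LS_sgn he hμ)
          rw [br_smul_left, br_one_left, smul_zero] at this
          have := ev_zero this
          rcases he with rfl | rfl <;> simpa using this
        exact ⟨1, d - c, Or.inl rfl, by rw [hd, one_smul, sub_smul]; abel⟩
      · refine extE h01 hx hq hT fun S hS μ hμ => ?_
        obtain ⟨e, η, he, hf⟩ := h S hS
        have := h1 T S μ hμ
        rw [hT', hf, br_form hA, ev_conj hA, one_mul] at this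
        exact ev_sgn he this
    obtain ⟨e, c, he, hf⟩ := this
    exact ⟨e, c, he, by rw [hT', hf, conj_aff hA]; simp⟩
  · intro h T
    obtain ⟨T', hT'⟩ : ∃ T' : Mat N,
        φ T = (Complex.I * 1) • (A * T'ᵀ * A⁻¹) + (0 : ℂ) • (1 : Mat N) :=
      ⟨((-Complex.I) • (A⁻¹ * φ T * A))ᵀ, by
        rw [Matrix.transpose_transpose, Matrix.mul_smul, Matrix.smul_mul, conj_back hA, smul_smul]
        simp⟩
    have : ∃ ε η : ℂ, (ε = 1 ∨ ε = -1) ∧ T' = ε • T + η • (1 : Mat N) := by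
      by_cases hT : ∃ c : ℂ, T = c • (1 : Mat N)
      · obtain ⟨c, rfl⟩ := hT
        obtain ⟨d, hd⟩ := scal_of (T := T'ᵀ) h01 (inv_ne hA hx)
          (hq.comp (Matrix.transposeLinearEquiv (Fin N) (Fin N) ℂ ℂ).toLinearMap
            (Matrix.transposeLinearEquiv (Fin N) (Fin N) ℂ ℂ).surjective) fun S hS μ hμ => by
          obtain ⟨e, η, he, hf⟩ := h Sᵀ hS
          have := h2 (c • 1) Sᵀ (e * -μ) (by
            rw [hT', hf, br_formT hA, LS_conj hA, one_mul]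
            refine LS_sgn he ?_
            have e1 : (br T' Sᵀ)ᵀ = - br T'ᵀ S := by
              have := br_transpose T' Sᵀ
              rw [Matrix.transpose_transpose] at this
              rw [this, neg_neg]
            rw [e1]; exact LS_neg hμ)
          rw [br_smul_left, br_one_left, smul_zero] at this
          have := ev_zero this
          rcases he with rfl | rfl <;> simpa using this
        refine ⟨1, d - c, Or.inl rfl, ?_⟩
        have := congrArg Matrix.transpose hd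
        rw [Matrix.transpose_transpose, Matrix.transpose_smul, Matrix.transpose_one] at this
        rw [this, one_smul, sub_smul]; abel
      · refine extE h01 hx hq hT fun S hS μ hμ => ?_
        obtain ⟨e, η, he, hf⟩ := h S hS
        have := h1 T S μ hμ
        rw [hT', hf, br_formT hA, ev_conj hA, one_mul, ← Matrix.transpose_smul, ev_transpose] at this
        exact ev_sgn he this
    obtain ⟨e, c, he, hf⟩ := this
    refine ⟨e, Complex.I * c, he, ?_⟩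
    rw [hT', hf, Matrix.transpose_add, Matrix.transpose_smul, Matrix.transpose_smul,
      Matrix.transpose_one, conj_aff hA, smul_add, smul_smul, smul_smul]
    simp

end Pool.Agent.H.MP_fda97a_al
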