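import Mathlib
import Pool.Agent.H.MP_fda97a_al.Ext

namespace Pool.Agent.H.MP_fda97a_al
open Pool.Agent.H.MP_296aa8_al Matrix Polynomial

variable {N : ℕ}

lemma sym_quad {T : Mat N} {a b : ℂ} (hT : T * T = a • T + b • (1 : Mat N)) (S : Mat N) {μ : ℂ}
    (h : Ev (br T S) μ) : Ev (br T S) (-μ) := by
  by_contra hn
  have hμ : μ ≠ 0 := by rintro rfl; exact hn (by simpa using h)
  set T0 : Mat N := T - (a / 2) • (1 : Mat N) with hT0
  set Y := br T S with hY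
  have hY0 : Y = T0 * S - S * T0 := by
    simp only [hY, hT0, br, sub_mul, mul_sub, Matrix.smul_mul, Matrix.mul_smul, one_mul, mul_one]
    abel
  have hsq : T0 * T0 = (b + a ^ 2 / 4) • (1 : Mat N) := by
    simp only [hT0, sub_mul, mul_sub, Matrix.smul_mul, Matrix.mul_smul, one_mul, mul_one, hT]
    module
  have hanti : T0 * Y = -(Y * T0) := by
    have : T0 * Y + Y * T0 = T0 * T0 * S - S * (T0 * T0) := by rw [hY0]; noncomm_ring
    rw [hsq] at this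
    simp only [Matrix.smul_mul, Matrix.mul_smul, one_mul, mul_one, sub_self] at this
    exact eq_neg_of_add_eq_zero_left this
  have hU : IsUnit (-Y - μ • (1 : Mat N)) := by
    rw [Matrix.isUnit_iff_isUnit_det, isUnit_iff_ne_zero]
    intro hd
    obtain ⟨v, hv, e⟩ := Matrix.exists_mulVec_eq_zero_iff.2 hd
    refine hn ⟨v, hv, ?_⟩
    rw [Matrix.sub_mulVec, Matrix.neg_mulVec, Matrix.smul_mulVec, Matrix.one_mulVec] at e
    rw [neg_smul, eq_neg_iff_add_eq_zero, ← neg_eq_zero, neg_add, ← sub_eq_add_neg, e]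
  have h1 : T0 * (Y - μ • (1 : Mat N)) = (-Y - μ • (1 : Mat N)) * T0 := by
    simp only [mul_sub, sub_mul, hanti, Matrix.smul_mul, Matrix.mul_smul, one_mul, mul_one, neg_mul]
  have hk : ∀ k : ℕ, T0 * (Y - μ • (1 : Mat N)) ^ k = (-Y - μ • (1 : Mat N)) ^ k * T0 := by
    intro k
    induction k with
    | zero => simp
    | succ k ih => rw [pow_succ, ← mul_assoc, ih, mul_assoc, h1, ← mul_assoc, ← pow_succ]
  obtain ⟨r, hr, hr'⟩ := Polynomial.exists_eq_pow_rootMultiplicity_mul_and_not_dvd Y.charpoly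
    Y.charpoly_monic.ne_zero μ
  rw [Polynomial.dvd_iff_isRoot] at hr'
  have h2 : (Y - μ • (1 : Mat N)) ^ rootMultiplicity μ Y.charpoly * aeval Y r = 0 := by
    have := Matrix.aeval_self_charpoly Y
    rw [hr, map_mul, map_pow, map_sub, aeval_X, aeval_C, Algebra.algebraMap_eq_smul_one] at this
    exact this
  have h3 : T0 * aeval Y r = 0 := by
    have := congrArg (fun Z => T0 * Z) h2
    simp only [mul_zero] at this
    rw [← mul_assoc, hk, mul_assoc] at this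
    exact ((hU.pow _).mul_right_eq_zero).1 this
  obtain ⟨f, hf, e⟩ := ev_transpose.2 h
  rw [Matrix.mulVec_transpose] at e
  have h4 : f ᵥ* T0 = 0 := by
    have h5 : T0 * (-Y - μ • (1 : Mat N)) = (Y - μ • (1 : Mat N)) * T0 := by
      simp only [mul_sub, sub_mul, mul_neg, hanti, Matrix.smul_mul, Matrix.mul_smul, one_mul,
        mul_one, neg_neg]
    apply Matrix.vecMul_injective_iff_isUnit.2 hU
    change (f ᵥ* T0) ᵥ* _ = 0 ᵥ* _
    rw [Matrix.vecMul_vecMul, h5, ← Matrix.vecMul_vecMul, Matrix.vecMul_sub Y, e]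
    simp [Matrix.vecMul_smul]
  have h6 : f ᵥ* (Y * aeval Y r) = 0 := by
    conv_lhs => arg 2; arg 1; rw [hY0]
    rw [sub_mul, mul_assoc S, h3, mul_zero, sub_zero, mul_assoc, ← Matrix.vecMul_vecMul, h4,
      Matrix.zero_vecMul]
  rw [← Matrix.vecMul_vecMul, e, Matrix.smul_vecMul, aeval_eigL e, smul_smul] at h6
  exact hf ((smul_eq_zero.1 h6).resolve_left (mul_ne_zero hμ hr'))

lemma exists_dot {v : Fin N → ℂ} (hv : v ≠ 0) : ∃ g : Fin N → ℂ, g ⬝ᵥ v = 1 := by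
  obtain ⟨k, hk⟩ := Function.ne_iff.1 hv
  exact ⟨Pi.single k (v k)⁻¹, by simpa using inv_mul_cancel₀ hk⟩

lemma nz_mv {M : Mat N} (hM : M ≠ 0) : ∃ r : (Fin N → ℂ) → ℂ, NZ r ∧ ∀ z, r z ≠ 0 → M *ᵥ z ≠ 0 := by
  have : ∃ z, M *ᵥ z ≠ 0 := by
    by_contra h
    push Not at h
    exact hM (Matrix.ext_iff_mulVec.2 fun v => by rw [h, Matrix.zero_mulVec])
  obtain ⟨z, hz⟩ := this
  obtain ⟨g, hg⟩ := exists_dot hz
  exact ⟨fun z => g ⬝ᵥ M *ᵥ z, ⟨pol_dot (PMap.const _) (PMap.lin (Matrix.mulVecLin M)), z,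
    by beta_reduce; rw [hg]; exact one_ne_zero⟩, fun z hz h => hz (by simp [h])⟩

lemma chain3 {T : Mat N} (hT : ¬ ∃ a b : ℂ, T * T = a • T + b • (1 : Mat N)) :
    ∃ (a b c : ℂ) (u1 u2 u3 f1 f2 f3 : Fin N → ℂ), T *ᵥ u1 = a • u1 ∧ T *ᵥ u2 = b • u2 + u1 ∧
      T *ᵥ u3 = c • u3 + u2 ∧ f1 ⬝ᵥ u1 = 1 ∧ f1 ⬝ᵥ u2 = 0 ∧ f1 ⬝ᵥ u3 = 0 ∧
      f2 ⬝ᵥ u1 = 0 ∧ f2 ⬝ᵥ u2 = 1 ∧ f2 ⬝ᵥ u3 = 0 ∧ f3 ⬝ᵥ u1 = 0 ∧ f3 ⬝ᵥ u2 = 0 ∧ f3 ⬝ᵥ u3 = 1 := by
  have hint : IsIntegral ℂ T := Matrix.isIntegral T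
  have hmon := minpoly.monic hint
  have hdeg : 3 ≤ (minpoly ℂ T).natDegree := by
    by_contra h
    apply hT
    have hm : (minpoly ℂ T * X ^ (2 - (minpoly ℂ T).natDegree)).Monic :=
      hmon.mul (Polynomial.monic_X_pow _)
    have hd : (minpoly ℂ T * X ^ (2 - (minpoly ℂ T).natDegree)).natDegree = 2 := by
      rw [hmon.natDegree_mul (Polynomial.monic_X_pow _), Polynomial.natDegree_X_pow]; omega
    have h0 : aeval T (minpoly ℂ T * X ^ (2 - (minpoly ℂ T).natDegree)) = 0 := by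
      rw [map_mul, minpoly.aeval, zero_mul]
    have h2 := hm.coeff_natDegree
    rw [hd] at h2
    rw [Polynomial.aeval_eq_sum_range, hd] at h0
    simp only [Finset.sum_range_succ, Finset.range_zero, Finset.sum_empty, h2, one_smul, pow_zero,
      pow_one, zero_add, pow_two] at h0
    refine ⟨-(minpoly ℂ T * X ^ (2 - (minpoly ℂ T).natDegree)).coeff 1,
      -(minpoly ℂ T * X ^ (2 - (minpoly ℂ T).natDegree)).coeff 0, ?_⟩
    rw [eq_neg_of_add_eq_zero_right h0, neg_smul, neg_smul]; abel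
  have step : ∀ m : ℂ[X], m.Monic → 0 < m.natDegree →
      ∃ (a : ℂ) (r : ℂ[X]), r.Monic ∧ m = (X - C a) * r ∧ m.natDegree = r.natDegree + 1 := by
    intro m hm hd
    obtain ⟨a, ha⟩ := IsAlgClosed.exists_root m (Polynomial.natDegree_pos_iff_degree_pos.1 hd).ne'
    obtain ⟨r, hr⟩ := Polynomial.dvd_iff_isRoot.2 ha
    have hrm : r.Monic := (Polynomial.monic_X_sub_C a).of_mul_monic_left (hr ▸ hm)
    refine ⟨a, r, hrm, hr, ?_⟩
    rw [hr, (Polynomial.monic_X_sub_C a).natDegree_mul hrm, Polynomial.natDegree_X_sub_C, add_comm]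
  obtain ⟨a, r1, m1, e1, d1⟩ := step _ hmon (by omega)
  obtain ⟨b, r2, m2, e2, d2⟩ := step _ m1 (by omega)
  obtain ⟨c, r, m3, e3, d3⟩ := step _ m2 (by omega)
  have hne : ∀ s t : ℂ, aeval T ((X - C s) * ((X - C t) * r)) ≠ 0 := by
    intro s t h
    have hm : ((X - C s) * ((X - C t) * r)).Monic :=
      (Polynomial.monic_X_sub_C s).mul ((Polynomial.monic_X_sub_C t).mul m3)
    have := Polynomial.natDegree_le_natDegree (minpoly.min ℂ T hm h)
    rw [(Polynomial.monic_X_sub_C s).natDegree_mul ((Polynomial.monic_X_sub_C t).mul m3),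
      (Polynomial.monic_X_sub_C t).natDegree_mul m3, Polynomial.natDegree_X_sub_C,
      Polynomial.natDegree_X_sub_C] at this
    omega
  obtain ⟨q1, n1, k1⟩ := nz_mv (hne a b)
  obtain ⟨q2, n2, k2⟩ := nz_mv (hne a c)
  obtain ⟨q3, n3, k3⟩ := nz_mv (hne b c)
  obtain ⟨z, hz⟩ := ((n1.mul n2).mul n3).2
  simp only [mul_ne_zero_iff] at hz
  have hL : ∀ (s : ℂ) (p : ℂ[X]), aeval T ((X - C s) * p) *ᵥ z =
      (T - s • (1 : Mat N)) *ᵥ (aeval T p *ᵥ z) := fun s p => by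
    rw [map_mul, map_sub, aeval_X, aeval_C, Algebra.algebraMap_eq_smul_one, Matrix.mulVec_mulVec]
  have hS : ∀ (s : ℂ) (v : Fin N → ℂ), (T - s • (1 : Mat N)) *ᵥ v = T *ᵥ v - s • v := fun s v => by
    rw [Matrix.sub_mulVec, Matrix.smul_mulVec, Matrix.one_mulVec]
  have z1 := k1 z hz.1.1
  have z2 := k2 z hz.1.2
  have z3 := k3 z hz.2
  have z0 : aeval T ((X - C a) * ((X - C b) * ((X - C c) * r))) *ᵥ z = 0 := by
    rw [← e3, ← e2, ← e1, minpoly.aeval, Matrix.zero_mulVec]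
  simp only [hL] at z0 z1 z2 z3
  set u3 := aeval T r *ᵥ z
  set u2 := (T - c • (1 : Mat N)) *ᵥ u3 with hu2
  set u1 := (T - b • (1 : Mat N)) *ᵥ u2 with hu1
  have t1 : T *ᵥ u1 = a • u1 := by rw [hS] at z0; exact sub_eq_zero.1 z0
  have t2 : T *ᵥ u2 = b • u2 + u1 := by rw [hu1, hS]; abel
  have t3 : T *ᵥ u3 = c • u3 + u2 := by rw [hu2, hS]; abel
  obtain ⟨g1, hg1⟩ := exists_dot z3
  obtain ⟨g2, hg2⟩ := exists_dot z2
  obtain ⟨g3, hg3⟩ := exists_dot z1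
  let f3 := (g3 ᵥ* (T - a • (1 : Mat N))) ᵥ* (T - b • (1 : Mat N))
  have a31 : f3 ⬝ᵥ u1 = 0 := by
    simp only [f3, ← Matrix.dotProduct_mulVec]
    rw [hS b u1, t1, ← sub_smul, Matrix.mulVec_smul, z0]; simp
  have a32 : f3 ⬝ᵥ u2 = 0 := by
    simp only [f3, ← Matrix.dotProduct_mulVec]
    rw [← hu1, z0]; simp
  have a33 : f3 ⬝ᵥ u3 = 1 := by
    simp only [f3, ← Matrix.dotProduct_mulVec]; exact hg3
  let f2' := g2 ᵥ* (T - a • (1 : Mat N))
  have a21 : f2' ⬝ᵥ u1 = 0 := by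
    simp only [f2', ← Matrix.dotProduct_mulVec]; rw [z0]; simp
  have a22 : f2' ⬝ᵥ u2 = 1 := by
    simp only [f2', ← Matrix.dotProduct_mulVec]; exact hg2
  let f2 := f2' - (f2' ⬝ᵥ u3) • f3
  have b21 : f2 ⬝ᵥ u1 = 0 := by simp [f2, sub_dotProduct, a21, a31]
  have b22 : f2 ⬝ᵥ u2 = 1 := by simp [f2, sub_dotProduct, a22, a32]
  have b23 : f2 ⬝ᵥ u3 = 0 := by simp [f2, sub_dotProduct, a33]
  refine ⟨a, b, c, u1, u2, u3, g1 - (g1 ⬝ᵥ u2) • f2 - (g1 ⬝ᵥ u3) • f3, f2, f3, t1, t2, t3, ?_, ?_, ?_,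
    b21, b22, b23, a31, a32, a33⟩
  · simp [sub_dotProduct, hg1, b21, a31]
  · simp [sub_dotProduct, b22, a32]
  · simp [sub_dotProduct, b23, a33]

lemma nonsym {T : Mat N} (hT : ¬ ∃ a b : ℂ, T * T = a • T + b • (1 : Mat N)) :
    ∃ S, Ev (br T S) 1 ∧ ¬ Ev (br T S) (-1) := by
  obtain ⟨a, b, c, u1, u2, u3, f1, f2, f3, t1, t2, t3, a11, a12, a13, a21, a22, a23, a31, a32, a33⟩ :=
    chain3 hT
  have hX : ∀ v, br T (vecMulVec u2 f1 + (-1 : ℂ) • vecMulVec u3 f2) *ᵥ v =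
      (f1 ⬝ᵥ v) • u1 + (b * (f1 ⬝ᵥ v) - f1 ⬝ᵥ T *ᵥ v - f2 ⬝ᵥ v) • u2 +
        (f2 ⬝ᵥ T *ᵥ v - c * (f2 ⬝ᵥ v)) • u3 := fun v => by
    rw [br_add_right, br_smul_right, Matrix.add_mulVec, Matrix.smul_mulVec, br_rank, br_rank, t2, t3]
    module
  refine ⟨vecMulVec u2 f1 + (-1 : ℂ) • vecMulVec u3 f2, ⟨u3, ?_, ?_⟩, ?_⟩
  · rintro rfl; simp at a33
  · rw [hX, t3]
    simp [dotProduct_add, a13, a12, a23, a22]
  · rintro ⟨v, hv, e⟩
    rw [hX] at e
    obtain ⟨x, y, z, rfl⟩ : ∃ x y z : ℂ, v = x • u1 + y • u2 + z • u3 :=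
      ⟨_, _, _, by
        have : v = (-1 : ℂ) • ((-1 : ℂ) • v) := by simp
        rw [this, ← e, smul_add, smul_add, smul_smul, smul_smul, smul_smul]⟩
    have e1 := congrArg (fun w => f1 ⬝ᵥ w) e
    have e2 := congrArg (fun w => f2 ⬝ᵥ w) e
    have e3 := congrArg (fun w => f3 ⬝ᵥ w) e
    simp only [Matrix.mulVec_add, Matrix.mulVec_smul, t1, t2, t3, dotProduct_add, dotProduct_smul,
      a11, a12, a13, a21, a22, a23, a31, a32, a33, smul_eq_mul] at e1 e2 e3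
    have hx : x = 0 := by linear_combination e1 / 2
    have hy : y = 0 := by linear_combination -e2 + (b - a) * hx
    have hz : z = 0 := by linear_combination e3 / 2 - (b - c) * hy / 2
    apply hv
    simp [hx, hy, hz]

lemma nz_nonsym {T : Mat N} (hT : ¬ ∃ a b : ℂ, T * T = a • T + b • (1 : Mat N)) :
    ∃ r : Mat N → ℂ, NZ r ∧ ∀ U, r U ≠ 0 → ∃ μ, Ev (br T U) μ ∧ ¬ Ev (br T U) (-μ) := by
  obtain ⟨S, ⟨v, hv, e⟩, h2⟩ := nonsym hT
  obtain ⟨g, hg⟩ := exists_dot hv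
  have b1 : PMap (fun S : Mat N => br T S) := pm_br (PMap.const _) PMap.id
  refine ⟨fun U => af g v (aeval (br T U) (-br T U).charpoly ^ Fintype.card (Fin N)),
    ⟨pm_pow (pm_aeval b1 (pm_neg b1)) _ _, S, ?_⟩, fun U hU => ?_⟩
  · beta_reduce
    rw [← map_pow, af_apply, aeval_eig e, dotProduct_smul, hg, Polynomial.eval_pow, smul_eq_mul,
      mul_one]
    refine pow_ne_zero _ fun h => h2 ?_
    rwa [← ev_iff_root, ev_neg] at h
  · by_contra h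
    push Not at h
    apply hU
    beta_reduce
    rw [← map_pow, af_apply, kill_of_LS, dotProduct_zero]
    intro μ hμ
    rw [← ev_iff_root, ev_neg]
    exact h μ hμ.ev

lemma sgn_eq {Y : Mat N} {a b : ℂ} (ha : a = 1 ∨ a = -1) (hb : b = 1 ∨ b = -1)
    (h : ∀ μ, Ev ((a * b) • Y) μ ↔ Ev Y μ) (hn : ∃ μ, Ev Y μ ∧ ¬ Ev Y (-μ)) : a = b := by
  obtain ⟨μ, h1, h2⟩ := hn
  have := (h μ).2 h1
  rcases ha with rfl | rfl <;> rcases hb with rfl | rfl
  · rfl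
  · exact absurd (by rw [← ev_neg]; simpa using this) h2
  · exact absurd (by rw [← ev_neg]; simpa using this) h2
  · rfl

lemma sgn_ev {T S : Mat N} {ε : Mat N → ℂ} (h1 : ∀ T, ε T = 1 ∨ ε T = -1)
    (h2 : ∀ T S, (¬ ∃ a b : ℂ, T * T = a • T + b • (1 : Mat N)) →
      (¬ ∃ a b : ℂ, S * S = a • S + b • (1 : Mat N)) → ε T = ε S) (μ : ℂ) :
    Ev ((ε T * ε S) • br T S) μ ↔ Ev (br T S) μ := by
  by_cases he : ε T = ε S
  · have : ε T * ε S = 1 := by rw [he]; rcases h1 S with h | h <;> simp [h]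
    rw [this, one_smul]
  · have : ε T * ε S = -1 := by
      rcases h1 S with h | h <;> rcases h1 T with h' | h' <;> simp_all
    rw [this, neg_smul, one_smul, ev_neg]
    have hs : ∀ μ, Ev (br T S) μ → Ev (br T S) (-μ) := by
      intro μ hμ
      by_cases hT : ∃ a b : ℂ, T * T = a • T + b • (1 : Mat N)
      · obtain ⟨a, b, hT⟩ := hT
        exact sym_quad hT S hμ
      by_cases hS : ∃ a b : ℂ, S * S = a • S + b • (1 : Mat N)
      · obtain ⟨a, b, hS⟩ := hS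
        rw [br_swap, ev_neg] at hμ ⊢
        exact sym_quad hS T hμ
      exact absurd (h2 T S hT hS) he
    exact ⟨fun h => by simpa using hs _ h, hs μ⟩

theorem glob (φ : Mat N → Mat N) :
    (∀ T S μ, Ev (br (φ T) (φ S)) μ ↔ Ev (br T S) μ) ↔
    ∃ (A : Mat N) (η ε : Mat N → ℂ), IsUnit A ∧ (∀ T, ε T = 1 ∨ ε T = -1) ∧
      (∀ T S, (¬ ∃ a b : ℂ, T * T = a • T + b • (1 : Mat N)) →
        (¬ ∃ a b : ℂ, S * S = a • S + b • (1 : Mat N)) → ε T = ε S) ∧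
      ((∀ T, φ T = ε T • (A * T * A⁻¹) + η T • (1 : Mat N)) ∨
        (∀ T, φ T = (Complex.I * ε T) • (A * Tᵀ * A⁻¹) + η T • (1 : Mat N))) := by
  constructor
  · intro h
    by_cases hN : ∃ i0 i1 : Fin N, i0 ≠ i1
    · obtain ⟨i0, i1, h01⟩ := hN
      obtain ⟨d, hd, hs⟩ := exists_diag N
      obtain ⟨T0, S0, h0⟩ := diag_br hs
      obtain ⟨q, hq, A, hA, hF⟩ := core h01 (φ := φ) (pm_disc PMap.id) (T0 := T0) (S0 := S0)
        (by rw [h0]; exact disc_diag hd) fun T S k hp => by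
          obtain ⟨d, hd, hev⟩ := sep_of_disc hp
          rw [trace_pow_of_ev hd hev, trace_pow_of_ev hd fun i => (h T S _).2 (hev i)]
      have hx : (Pi.single i0 1 : Fin N → ℂ) ≠ 0 := by simp
      have hE := ext_form h01 hx (fun T S μ hμ => (h T S μ).2 hμ.ev)
        (fun T S μ hμ => (h T S μ).1 hμ.ev) hq hA
      have fin : ∀ ε : Mat N → ℂ, (∀ T, ε T = 1 ∨ ε T = -1) →
          (∀ T S μ, Ev ((ε T * ε S) • br T S) μ ↔ Ev (br T S) μ) →
          ∀ T S, (¬ ∃ a b : ℂ, T * T = a • T + b • (1 : Mat N)) →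
            (¬ ∃ a b : ℂ, S * S = a • S + b • (1 : Mat N)) → ε T = ε S := by
        intro ε h1 h2 T S hT hS
        obtain ⟨r1, n1, k1⟩ := nz_nonsym hT
        obtain ⟨r2, n2, k2⟩ := nz_nonsym hS
        obtain ⟨U, hU⟩ := (n1.mul n2).2
        obtain ⟨u1, u2⟩ := mul_ne_zero_iff.1 hU
        rw [sgn_eq (h1 T) (h1 U) (h2 T U) (k1 U u1), sgn_eq (h1 S) (h1 U) (h2 S U) (k2 U u2)]
      rcases hF with hF | hF
      · choose ε η h1 h2 using hE.1 hF
        refine ⟨A, η, ε, hA, h1, fin ε h1 fun T S μ => ?_, Or.inl h2⟩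
        rw [← h T S μ, h2, h2, br_form hA, ev_conj hA]
      · choose ε η h1 h2 using hE.2 hF
        refine ⟨A, η, ε, hA, h1, fin ε h1 fun T S μ => ?_, Or.inr h2⟩
        rw [← h T S μ, h2, h2, br_formT hA, ev_conj hA, ← Matrix.transpose_smul, ev_transpose]
    · push Not at hN
      refine ⟨1, fun T => (φ T - T).trace, fun _ => 1, isUnit_one, fun _ => Or.inl rfl,
        fun _ _ _ _ => rfl, Or.inl fun T => ?_⟩
      haveI : Subsingleton (Fin N) := ⟨hN⟩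
      ext i j
      obtain rfl := hN i j
      simp [Matrix.trace, Fintype.sum_subsingleton _ i]
  · rintro ⟨A, η, ε, hA, h1, h2, h3 | h3⟩ T S μ
    · rw [h3, h3, br_form hA, ev_conj hA, sgn_ev h1 h2]
    · rw [h3, h3, br_formT hA, ev_conj hA, ← Matrix.transpose_smul, ev_transpose, sgn_ev h1 h2]

end Pool.Agent.H.MP_fda97a_al
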